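import Pool.Agent.K7.H28.ST.T7

/-!
The converse: symplectic manifolds carry bounded forms on the product with a vector space.
-/

set_option autoImplicit false

open Set Filter Topology
open scoped Manifold ContDiff

noncomputable section

namespace Pool.Agent.K7.H28.ST

open Pool.Agent.Y501.SY

section bd

variable {d q : ℕ} {H : Type} [NormedAddCommGroup H] [NormedSpace ℝ H] {U : Set (E d)}

theorem BD.add (hU : IsOpen U) {f g : E d × E q → H} (hf : BD f U) (hg : BD g U) :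
    BD (fun z => f z + g z) U := by
  refine ⟨hf.1.add hg.1, fun n p hp => ?_⟩
  obtain ⟨N, hN, C, hC⟩ := hf.2 n p hp
  obtain ⟨N', hN', C', hC'⟩ := hg.2 n p hp
  refine ⟨N ∩ N' ∩ U, inter_mem (inter_mem hN hN') (hU.mem_nhds hp), C + C',
    fun p' hp' t => ?_⟩
  have hm : U ×ˢ (univ : Set (E q)) ∈ 𝓝 (p', t) :=
    (hU.prod isOpen_univ).mem_nhds ⟨hp'.2, trivial⟩
  have h1 : ContDiffAt ℝ n f (p', t) := (hf.1.contDiffAt hm).of_le (by exact_mod_cast le_top)
  have h2 : ContDiffAt ℝ n g (p', t) := (hg.1.contDiffAt hm).of_le (by exact_mod_cast le_top)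
  have h3 : iteratedFDeriv ℝ n (fun z => f z + g z) (p', t) =
      iteratedFDeriv ℝ n f (p', t) + iteratedFDeriv ℝ n g (p', t) :=
    iteratedFDeriv_add_apply h1 h2
  rw [h3]
  exact (norm_add_le _ _).trans (add_le_add (hC p' hp'.1.1 t) (hC' p' hp'.1.2 t))

theorem fst_le : ‖ContinuousLinearMap.fst ℝ (E d) (E q)‖ ≤ 1 :=
  ContinuousLinearMap.opNorm_le_bound _ zero_le_one fun x => by
    rw [ContinuousLinearMap.coe_fst', one_mul, Prod.norm_def]
    exact le_max_left _ _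

theorem BD.of_fst (hU : IsOpen U) {f : E d → H} (hf : ContDiffOn ℝ ∞ f U) :
    BD (fun z : E d × E q => f z.1) U := by
  refine ⟨hf.comp contDiff_fst.contDiffOn fun z hz => hz.1, fun n p hp => ?_⟩
  have hc : ContinuousOn (iteratedFDeriv ℝ n f) U := by
    have h1 := hf.continuousOn_iteratedFDerivWithin (m := n) (by exact_mod_cast le_top)
      hU.uniqueDiffOn
    refine h1.congr fun x hx => ?_
    rw [iteratedFDerivWithin_of_isOpen n hU hx]
  have hca : ContinuousAt (iteratedFDeriv ℝ n f) p := hc.continuousAt (hU.mem_nhds hp)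
  refine ⟨{p' | ‖iteratedFDeriv ℝ n f p'‖ ≤ ‖iteratedFDeriv ℝ n f p‖ + 1} ∩ U, ?_,
    ‖iteratedFDeriv ℝ n f p‖ + 1, fun p' hp' t => ?_⟩
  · refine inter_mem ?_ (hU.mem_nhds hp)
    filter_upwards [hca.norm.eventually_lt_const (lt_add_one _)] with y hy
    exact hy.le
  · have h1 := aff_norm hU hf (ContinuousLinearMap.fst ℝ (E d) (E q)) 0 (x := (p', t))
      (by simpa using hp'.2) n
    simp only [add_zero, ContinuousLinearMap.coe_fst'] at h1
    refine h1.trans ?_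
    exact (mul_le_of_le_one_right (norm_nonneg _) (pow_one_le fst_le n)).trans hp'.1

theorem BD.const (c : H) (hU : IsOpen U) : BD (fun _ : E d × E q => c) U :=
  BD.of_fst hU contDiffOn_const

end bd

section

variable {d q : ℕ} {X : Type} [TopologicalSpace X] [ChartedSpace (E d) X]

/-- the sum of a two-form on `X` and of a constant two-form on `E q` -/
def sumF (σ : Form d X 2) (Jm : Matrix (Fin q) (Fin q) ℝ) : PForm d q X := fun x _ =>
  (σ x).compContinuousLinearMap (ContinuousLinearMap.fst ℝ (E d) (E q)) + Jf d Jm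

theorem sumF_apply (σ : Form d X 2) {Jm : Matrix (Fin q) (Fin q) ℝ} (hJ : Jm.transpose = -Jm)
    (x : X) (t : E q) (z w : E d × E q) : sumF σ Jm x t ![z, w] =
      σ x ![z.1, w.1] + ∑ i, ∑ j, Jm i j * (z.2 i * w.2 j) := by
  rw [← Jf_apply (d := d) hJ z w]
  change σ x (fun i => ContinuousLinearMap.fst ℝ (E d) (E q)
    ((![z, w] : Fin 2 → E d × E q) i)) + _ = _
  congr 1
  congr 1
  funext i
  fin_cases i <;> rfl

theorem ppb_sumF (σ : Form d X 2) {Jm : Matrix (Fin q) (Fin q) ℝ} (hJ : Jm.transpose = -Jm)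
    (φ : E d → X) : ppb φ (sumF σ Jm) = fun z : E d × E q =>
      ContinuousAlternatingMap.compContinuousLinearMapCLM
        (ContinuousLinearMap.fst ℝ (E d) (E q)) (pb φ σ z.1) + Jf d Jm := by
  funext z
  ext v
  rw [vec2' v]
  change (sumF σ Jm (φ z.1) z.2) (fun i => ((mfderiv (𝓡 d) (𝓡 d) φ z.1).prodMap
    (ContinuousLinearMap.id ℝ (E q))) ((![v 0, v 1] : Fin 2 → E d × E q) i)) =
    pb φ σ z.1 (fun i => ContinuousLinearMap.fst ℝ (E d) (E q)
      ((![v 0, v 1] : Fin 2 → E d × E q) i)) + Jf d Jm ![v 0, v 1]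
  have h1 : (fun i => ((mfderiv (𝓡 d) (𝓡 d) φ z.1).prodMap
    (ContinuousLinearMap.id ℝ (E q))) ((![v 0, v 1] : Fin 2 → E d × E q) i)) =
    ![(mfderiv (𝓡 d) (𝓡 d) φ z.1 (v 0).1, (v 0).2),
      (mfderiv (𝓡 d) (𝓡 d) φ z.1 (v 1).1, (v 1).2)] := by
    funext i
    fin_cases i <;> rfl
  have h2 : (fun i => ContinuousLinearMap.fst ℝ (E d) (E q)
      ((![v 0, v 1] : Fin 2 → E d × E q) i)) = ![(v 0).1, (v 1).1] := by
    funext i
    fin_cases i <;> rfl
  rw [h2, Jf_apply hJ]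
  have h3 := sumF_apply σ hJ (φ z.1) z.2 (mfderiv (𝓡 d) (𝓡 d) φ z.1 (v 0).1, (v 0).2)
      (mfderiv (𝓡 d) (𝓡 d) φ z.1 (v 1).1, (v 1).2)
  refine (congrArg (sumF σ Jm (φ z.1) z.2) h1).trans (h3.trans ?_)
  congr 1
  change _ = σ (φ z.1) (fun i => mfderiv (𝓡 d) (𝓡 d) φ z.1
    ((![(v 0).1, (v 1).1] : Fin 2 → E d) i))
  congr 1
  funext i
  fin_cases i <;> rfl

theorem sumF_bd {σ : Form d X 2} (hσ : IsSmooth σ) {Jm : Matrix (Fin q) (Fin q) ℝ}
    (hJ : Jm.transpose = -Jm) {U : Set (E d)} {φ : E d → X} (hU : IsOpen U)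
    (hφ : ContMDiffOn (𝓡 d) (𝓡 d) ∞ φ U) : BD (ppb φ (sumF σ Jm)) U := by
  rw [ppb_sumF σ hJ]
  exact BD.add hU ((BD.of_fst (q := q) hU (hσ U φ hU hφ)).clm hU _) (BD.const _ hU)

theorem sumF_closed {σ : Form d X 2} (hσ : IsSmooth σ) (hσc : IsClosedForm σ)
    {Jm : Matrix (Fin q) (Fin q) ℝ} (hJ : Jm.transpose = -Jm) {U : Set (E d)} {φ : E d → X}
    (hU : IsOpen U) (hφ : ContMDiffOn (𝓡 d) (𝓡 d) ∞ φ U) {p : E d} (hp : p ∈ U) (t : E q) :
    extDeriv (ppb φ (sumF σ Jm)) (p, t) = 0 := by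
  have hd : DifferentiableAt ℝ (ppb φ (sumF σ Jm)) (p, t) :=
    ((sumF_bd hσ hJ hU hφ).1.contDiffAt
      ((hU.prod isOpen_univ).mem_nhds ⟨hp, trivial⟩)).differentiableAt (by simp)
  have hd2 : DifferentiableAt ℝ (pb φ σ) p := hσ.diffAt hU hφ hp
  ext v
  rw [extDeriv_apply hd]
  have h0 : extDeriv (pb φ σ) p (fun i => (v i).1) = 0 := by
    rw [hσc U φ hU hφ p hp]
    rfl
  rw [extDeriv_apply hd2] at h0
  refine Eq.trans (Finset.sum_congr rfl fun i _ => ?_) h0
  congr 1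
  have h1 : (fun z : E d × E q => ppb φ (sumF σ Jm) z (i.removeNth v)) = fun z =>
      pb φ σ z.1 (i.removeNth (fun i => (v i).1)) + Jf d Jm (i.removeNth v) := by
    funext z
    rw [ppb_sumF σ hJ]
    rfl
  have h2 : HasFDerivAt (fun p => pb φ σ p (i.removeNth (fun i => (v i).1)))
      (fderiv ℝ (fun p => pb φ σ p (i.removeNth (fun i => (v i).1))) p) ((p, t) : E d × E q).1 := by
    have h3 : DifferentiableAt ℝ (fun p => pb φ σ p (i.removeNth (fun i => (v i).1))) p :=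
      ((ContinuousAlternatingMap.apply ℝ (E d) ℝ
        (i.removeNth (fun i => (v i).1))).differentiableAt).comp p hd2
    exact h3.hasFDerivAt
  have h3 := ((h2.comp (p, t) hasFDerivAt_fst).add_const (Jf d Jm (i.removeNth v))).fderiv
  rw [h1]
  exact congrArg (fun L : (E d × E q) →L[ℝ] ℝ => L (v i)) h3

theorem sumF_nd {σ : Form d X 2}
    (hnd : ∀ (x : X) (u : TangentSpace (𝓡 d) x), (∀ v, σ x ![u, v] = 0) → u = 0)
    {Jm : Matrix (Fin q) (Fin q) ℝ} (hJd : Jm.det ≠ 0) (x : X)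
    (z : E d × E q) (hz : ∀ w : E d × E q, σ x ![z.1, w.1] +
      ∑ i, ∑ j, Jm i j * (z.2 i * w.2 j) = 0) : z = 0 := by
  have h1 : z.1 = 0 := by
    refine hnd x z.1 fun v => ?_
    have h2 := hz (v, 0)
    have h3 : ∑ i, ∑ j, Jm i j * (z.2 i * (0 : E q) j) = 0 :=
      Finset.sum_eq_zero fun i _ => Finset.sum_eq_zero fun j _ => by
        change Jm i j * (z.2 i * 0) = 0
        ring
    change σ x ![z.1, v] + ∑ i, ∑ j, Jm i j * (z.2 i * (0 : E q) j) = 0 at h2
    rw [h3, add_zero] at h2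
    exact h2
  have h2 : (fun i => z.2 i) = 0 := by
    refine Matrix.eq_zero_of_vecMul_eq_zero hJd ?_
    funext j
    have h3 := hz (0, EuclideanSpace.single j 1)
    have h4 : σ x ![z.1, (0 : E d)] = 0 := by
      have h5 := al_smul1 (V := E d) (σ x) 0 z.1 (0 : E d)
      rw [zero_smul, zero_mul] at h5
      exact h5
    have h6 : ∑ i, ∑ k, Jm i k * (z.2 i * (EuclideanSpace.single j (1 : ℝ) : E q) k) =
        ∑ i, z.2 i * Jm i j := by
      refine Finset.sum_congr rfl fun i _ => ?_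
      rw [Finset.sum_eq_single j]
      · simp only [PiLp.single_apply, if_true]
        ring
      · intro k _ hk
        simp only [PiLp.single_apply, if_neg hk]
        ring
      · intro h
        exact absurd (Finset.mem_univ j) h
    change σ x ![z.1, (0 : E d)] +
      ∑ i, ∑ k, Jm i k * (z.2 i * (EuclideanSpace.single j (1 : ℝ) : E q) k) = 0 at h3
    rw [h4, h6, zero_add] at h3
    exact h3
  refine Prod.ext h1 ?_
  ext i
  exact congrFun h2 i

theorem sumF_hyp {σ : Form d X 2} (hσ : IsSmooth σ) (hσc : IsClosedForm σ)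
    (hnd : ∀ (x : X) (u : TangentSpace (𝓡 d) x), (∀ v, σ x ![u, v] = 0) → u = 0)
    {Jm : Matrix (Fin q) (Fin q) ℝ} (hJ : Jm.transpose = -Jm) (hJd : Jm.det ≠ 0) :
    PHyp (sumF σ Jm) where
  bd := fun U φ hU hφ => sumF_bd hσ hJ hU hφ
  closed := fun U φ hU hφ p hp t => sumF_closed hσ hσc hJ hU hφ hp t
  nd := by
    intro x
    suffices key : ∀ z : E d × E q, z ≠ 0 → ∃ w : E d × E q, ∃ c : ℝ, 0 < c ∧ ∀ t : E q,
        c ≤ sumF σ Jm x t ![z, w] from fun z hz => key z hz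
    intro z hz
    have h1 : ∃ w : E d × E q, sumF σ Jm x 0 ![z, w] ≠ 0 := by
      by_contra hne
      push Not at hne
      exact hz (sumF_nd hnd hJd x z fun w => by
        rw [← sumF_apply σ hJ x 0 z w]
        exact hne w)
    obtain ⟨w, hw⟩ := h1
    have hc : ∀ t : E q, sumF σ Jm x t = sumF σ Jm x 0 := fun t => rfl
    rcases lt_or_gt_of_ne hw with h | h
    · refine ⟨-w, -sumF σ Jm x 0 ![z, w], by linarith, fun t => ?_⟩
      rw [hc t]
      have h2 := al_smul1 (V := E d × E q) (sumF σ Jm x 0) (-1) z w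
      rw [neg_one_smul, neg_one_mul] at h2
      exact le_of_eq h2.symm
    · exact ⟨w, sumF σ Jm x 0 ![z, w], h, fun t => le_of_eq (by rw [hc t])⟩

/-- the criterion -/
theorem bounded_iff [IsManifold (𝓡 d) ∞ X] [CompactSpace X] [ConnectedSpace X] {k : ℕ}
    (hq : q = 2 * k) : (∃ σ : Form d X 2, IsSmooth σ ∧ IsClosedForm σ ∧
      ∀ (x : X) (u : TangentSpace (𝓡 d) x), (∀ v, σ x ![u, v] = 0) → u = 0) ↔
      ∃ om : PForm d q X, PHyp om := by
  constructor
  · rintro ⟨σ, h1, h2, h3⟩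
    obtain ⟨Jm, hJ, hJd⟩ := exists_antisymm hq
    exact ⟨sumF σ Jm, sumF_hyp h1 h2 h3 hJ hJd⟩
  · rintro ⟨om, h⟩
    exact bounded hq h

end

end Pool.Agent.K7.H28.ST
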