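import Pool.Agent.K7.H28.ST.PubB
import Pool.Agent.K7.H28.ST.T8
import Pool.Agent.Y501.SY.Bridge

/-!
Bounded two-forms on the product of a manifold and a vector space: comparison of the definitions.
-/

set_option autoImplicit false

open Set Filter Topology
open scoped Manifold ContDiff

noncomputable section

namespace Pool.Agent.K7.H28.STP

open Pool.Agent.Y501.SYP
open Pool.Agent.Y501
open Pool.Agent

section

variable {d : ℕ} {X : Type} [TopologicalSpace X] [ChartedSpace (ES d) X]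

attribute [local instance] Pool.Agent.Y501.SYP.cs
attribute [local instance] Pool.Agent.Y501.SYP.mf

theorem hyp_iff {q : ℕ} (w : PForm (ES d) (ES q) X) : IsBddClosed w ∧ UnifNondeg w ↔
    Pool.Agent.K7.H28.ST.PHyp (d := d) (q := q) (X := X) w :=
  ⟨fun h => ⟨fun U φ hU hφ => (h.1 U φ ⟨hU, hφ⟩).1, fun U φ hU hφ => (h.1 U φ ⟨hU, hφ⟩).2, h.2⟩,
    fun h => ⟨fun U φ hφ => ⟨h.bd U φ hφ.1 hφ.2, h.closed U φ hφ.1 hφ.2⟩, h.nd⟩⟩

theorem symp_iff (σ : Form (ES d) X 2) : IsSymplectic σ ↔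
    SY.IsSmooth (d := d) (X := X) σ ∧ SY.IsClosedForm (d := d) (X := X) σ ∧
      ∀ (x : X) (u : TangentSpace (𝓡 d) x), (∀ v, σ x ![u, v] = 0) → u = 0 :=
  ⟨fun h => ⟨(smooth_iff σ).1 h.smooth, (closed_iff σ).1 h.closed, h.nondeg⟩,
    fun h => ⟨(smooth_iff σ).2 h.1, (closed_iff σ).2 h.2.1, h.2.2⟩⟩

theorem boundedForms (k : ℕ) [IsManifold 𝓘(ℝ, ES d) ∞ X] [CompactSpace X] [ConnectedSpace X] :
    (∃ σ : Form (ES d) X 2, IsSymplectic σ) ↔
      ∃ w : PForm (ES d) (ES (2 * k)) X, IsBddClosed w ∧ UnifNondeg w := by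
  have h := Pool.Agent.K7.H28.ST.bounded_iff (d := d) (X := X) (k := k) rfl
  constructor
  · rintro ⟨σ, hσ⟩
    obtain ⟨w, hw⟩ := h.1 ⟨σ, (symp_iff σ).1 hσ⟩
    exact ⟨w, (hyp_iff w).2 hw⟩
  · rintro ⟨w, hw⟩
    obtain ⟨σ, hσ⟩ := h.2 ⟨w, (hyp_iff w).1 hw⟩
    exact ⟨σ, (symp_iff σ).2 hσ⟩

end

end Pool.Agent.K7.H28.STP
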