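import Pool.Agent.Y501.SY.PubV

/-!
Bounded two-forms on the product of a manifold and a vector space: the definitions used in the
statement.
-/

set_option autoImplicit false

open Set Filter Topology
open scoped Manifold ContDiff

noncomputable section

namespace Pool.Agent.K7.H28.STP

open Pool.Agent.Y501.SYP

section

variable {V : Type} [NormedAddCommGroup V] [NormedSpace ℝ V]
  {W : Type} [NormedAddCommGroup W] [NormedSpace ℝ W]
  {X : Type} [TopologicalSpace X] [ChartedSpace V X]

variable (V W X) in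
/-- two-forms on the product of `X` and of the vector space `W`, without any regularity; the
value at `(x, t)` is `w x t` -/
abbrev PForm : Type := (x : X) → W → (TangentSpace 𝓘(ℝ, V) x × W) [⋀^Fin 2]→L[ℝ] ℝ

/-- the pull-back of a two-form on `X × W` by `φ × id` -/
def ppb (φ : V → X) (w : PForm V W X) (z : V × W) : (V × W) [⋀^Fin 2]→L[ℝ] ℝ :=
  (w (φ z.1) z.2).compContinuousLinearMap
    ((mfderiv 𝓘(ℝ, V) 𝓘(ℝ, V) φ z.1).prodMap (ContinuousLinearMap.id ℝ W))

/-- smooth on `U × W`, all iterated derivatives being bounded, uniformly in the second variable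
and locally uniformly in the first one -/
def BddDerivs (g : V × W → (V × W) [⋀^Fin 2]→L[ℝ] ℝ) (U : Set V) : Prop :=
  ContDiffOn ℝ ∞ g (U ×ˢ univ) ∧ ∀ n : ℕ, ∀ p ∈ U, ∃ N ∈ 𝓝 p, ∃ C : ℝ, ∀ p' ∈ N,
    ∀ t : W, ‖iteratedFDeriv ℝ n g (p', t)‖ ≤ C

/-- bounded closed two-forms on `X × W`: smooth, closed, and bounded with all their derivatives,
uniformly along `W` -/
def IsBddClosed (w : PForm V W X) : Prop :=
  ∀ (U : Set V) (φ : V → X), SmoothParam U φ →
    BddDerivs (ppb φ w) U ∧ ∀ p ∈ U, ∀ t : W, extDeriv (ppb φ w) (p, t) = 0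

/-- uniform nondegeneracy along `W`: for every nonzero vector `v` some vector `u`, which does not
depend on the point `t` of `W`, satisfies `c ≤ w (v, u)` at all the points `(x, t)`, with `0 < c` -/
def UnifNondeg (w : PForm V W X) : Prop :=
  ∀ (x : X) (v : TangentSpace 𝓘(ℝ, V) x × W), v ≠ 0 →
    ∃ (u : TangentSpace 𝓘(ℝ, V) x × W) (c : ℝ), 0 < c ∧ ∀ t : W, c ≤ w x t ![v, u]

/-- symplectic forms -/
structure IsSymplectic (σ : Form V X 2) : Prop where
  smooth : IsSmooth σ
  closed : IsClosedForm σ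
  nondeg : NondegForm σ

end

end Pool.Agent.K7.H28.STP
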