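import Pool.Agent.Y501.SY.StmA

/-!
Invariant means on commutative groups.
-/

set_option autoImplicit false

open Set Filter Topology

noncomputable section

namespace Pool.Agent.K7.H28.ST

open Pool.Agent.Y501.SY

variable {Γ : Type}

/-- means on bounded functions -/
structure PM (m : (Γ → ℝ) → ℝ) : Prop where
  add : ∀ F G, Bdd F → Bdd G → m (fun γ => F γ + G γ) = m F + m G
  smul : ∀ (c : ℝ) F, Bdd F → m (fun γ => c * F γ) = c * m F
  nonneg : ∀ F, Bdd F → (∀ γ, 0 ≤ F γ) → 0 ≤ m F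
  one : m (fun _ => 1) = 1

theorem bdd_const (c : ℝ) : Bdd (fun _ : Γ => c) := ⟨|c|, fun _ => le_rfl⟩

theorem bdd_add' {F G : Γ → ℝ} (h : Bdd F) (h' : Bdd G) : Bdd (fun γ => F γ + G γ) := by
  obtain ⟨C, hC⟩ := h
  obtain ⟨C', hC'⟩ := h'
  exact ⟨C + C', fun γ => (abs_add_le _ _).trans (add_le_add (hC γ) (hC' γ))⟩

theorem bdd_smul' {F : Γ → ℝ} (c : ℝ) (h : Bdd F) : Bdd (fun γ => c * F γ) := by
  obtain ⟨C, hC⟩ := h
  exact ⟨|c| * C, fun γ => by
    rw [abs_mul]
    exact mul_le_mul_of_nonneg_left (hC γ) (abs_nonneg c)⟩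

theorem PM.const {m : (Γ → ℝ) → ℝ} (hm : PM m) (c : ℝ) : m (fun _ => c) = c := by
  have h := hm.smul c (fun _ => 1) (bdd_const 1)
  rw [hm.one, mul_one] at h
  simpa using h

theorem PM.le {m : (Γ → ℝ) → ℝ} (hm : PM m) {F : Γ → ℝ} {C : ℝ} (h : ∀ γ, |F γ| ≤ C) :
    m F ≤ C := by
  have hF : Bdd F := ⟨C, h⟩
  have h1 := hm.nonneg (fun γ => C + (-1) * F γ) (bdd_add' (bdd_const C) (bdd_smul' (-1) hF))
    (fun γ => by have := (abs_le.1 (h γ)).2; linarith)
  rw [hm.add _ _ (bdd_const C) (bdd_smul' (-1) hF), hm.const, hm.smul _ _ hF] at h1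
  linarith

theorem PM.abs_le {m : (Γ → ℝ) → ℝ} (hm : PM m) {F : Γ → ℝ} {C : ℝ} (h : ∀ γ, |F γ| ≤ C) :
    |m F| ≤ C := by
  refine _root_.abs_le.2 ⟨?_, hm.le h⟩
  have h1 := hm.le (F := fun γ => (-1) * F γ) (C := C) (fun γ => by
    rw [neg_one_mul, abs_neg]
    exact h γ)
  rw [hm.smul _ _ ⟨C, h⟩] at h1
  linarith

/-- limits of means along ultrafilters -/
theorem lim_mean {ι : Type} (U : Ultrafilter ι) (M : ι → (Γ → ℝ) → ℝ) (hM : ∀ i, PM (M i)) :
    ∃ m : (Γ → ℝ) → ℝ, PM m ∧ ∀ F, Bdd F → Tendsto (fun i => M i F) U (𝓝 (m F)) := by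
  have hlim : ∀ F : Γ → ℝ, ∃ x : ℝ, Bdd F → Tendsto (fun i => M i F) U (𝓝 x) := by
    intro F
    by_cases hF : Bdd F
    · obtain ⟨C, hC⟩ := hF
      have hmem : ∀ i, M i F ∈ Icc (-C) C := fun i => _root_.abs_le.1 ((hM i).abs_le hC)
      obtain ⟨x, -, hx⟩ := (isCompact_Icc (a := -C) (b := C)).ultrafilter_le_nhds
        (U.map (fun i => M i F)) (by
          rw [le_principal_iff]
          exact Filter.mem_map.2 (Filter.univ_mem' hmem))
      exact ⟨x, fun _ => hx⟩
    · exact ⟨0, fun h => (hF h).elim⟩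
  choose m hm using hlim
  refine ⟨m, ⟨fun F G hF hG => ?_, fun c F hF => ?_, fun F hF h0 => ?_, ?_⟩, fun F hF => hm F hF⟩
  · refine tendsto_nhds_unique (hm _ (bdd_add' hF hG)) ?_
    refine ((hm F hF).add (hm G hG)).congr fun i => ?_
    exact ((hM i).add F G hF hG).symm
  · refine tendsto_nhds_unique (hm _ (bdd_smul' c hF)) ?_
    refine ((hm F hF).const_mul c).congr fun i => ?_
    exact ((hM i).smul c F hF).symm
  · exact ge_of_tendsto' (hm F hF) fun i => (hM i).nonneg F hF h0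
  · refine tendsto_nhds_unique (hm _ (bdd_const 1)) ?_
    refine tendsto_const_nhds.congr fun i => ?_
    exact (hM i).one.symm

theorem bdd_comp {F : Γ → ℝ} (h : Bdd F) {Δ : Type} (f : Δ → Γ) : Bdd (fun x => F (f x)) := by
  obtain ⟨C, hC⟩ := h
  exact ⟨C, fun x => hC _⟩

/-- `m` is invariant under translation by `g` -/
def Inv [CommGroup Γ] (m : (Γ → ℝ) → ℝ) (g : Γ) : Prop :=
  ∀ F, Bdd F → m (fun x => F (x * g)) = m F

theorem step_mean [CommGroup Γ] {m : (Γ → ℝ) → ℝ} (hm : PM m) (g : Γ) :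
    ∃ m' : (Γ → ℝ) → ℝ, PM m' ∧ Inv m' g ∧ ∀ s, Inv m s → Inv m' s := by
  set M : ℕ → (Γ → ℝ) → ℝ := fun n F =>
    ((n : ℝ) + 1)⁻¹ * ∑ j ∈ Finset.range (n + 1), m (fun x => F (x * g ^ j)) with hMd
  have hn : ∀ n : ℕ, (0 : ℝ) < (n : ℝ) + 1 := fun n => by positivity
  have hM : ∀ n, PM (M n) := by
    intro n
    refine ⟨fun F G hF hG => ?_, fun c F hF => ?_, fun F hF h0 => ?_, ?_⟩
    · simp only [hMd]
      rw [← mul_add, ← Finset.sum_add_distrib]
      congr 1
      exact Finset.sum_congr rfl fun j _ => hm.add _ _ (bdd_comp hF _) (bdd_comp hG _)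
    · simp only [hMd]
      rw [Finset.sum_congr rfl fun j _ =>
        hm.smul c (fun x => F (x * g ^ j)) (bdd_comp hF _), ← Finset.mul_sum]
      ring
    · simp only [hMd]
      exact mul_nonneg (inv_nonneg.2 (hn n).le)
        (Finset.sum_nonneg fun j _ => hm.nonneg _ (bdd_comp hF _) fun x => h0 _)
    · simp only [hMd, hm.one]
      rw [Finset.sum_const, Finset.card_range, nsmul_eq_mul, mul_one]
      push_cast
      exact inv_mul_cancel₀ (hn n).ne'
  obtain ⟨m', hm', hlim⟩ := lim_mean (Filter.hyperfilter ℕ) M hM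
  have hle : (Filter.hyperfilter ℕ : Filter ℕ) ≤ atTop := Nat.hyperfilter_le_atTop
  refine ⟨m', hm', fun F hF => ?_, fun s hs F hF => ?_⟩
  · obtain ⟨C, hC⟩ := hF
    have hF : Bdd F := ⟨C, hC⟩
    have h1 := (hlim _ (bdd_comp hF (fun x => x * g))).sub (hlim F hF)
    have h2 : Tendsto (fun n => M n (fun x => F (x * g)) - M n F) atTop (𝓝 0) := by
      have h3 : ∀ n, |M n (fun x => F (x * g)) - M n F| ≤ 2 * C * ((n : ℝ) + 1)⁻¹ := by
        intro n
        simp only [hMd]
        rw [← mul_sub, ← Finset.sum_sub_distrib]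
        obtain ⟨a, ha⟩ : ∃ a : ℕ → ℝ, a = fun j => m (fun x => F (x * g ^ j)) := ⟨_, rfl⟩
        have e1 : ∀ j, m (fun x => F (x * g ^ j * g)) - m (fun x => F (x * g ^ j)) =
            a (j + 1) - a j := by
          intro j
          rw [ha]
          simp only [pow_succ, mul_assoc]
        rw [Finset.sum_congr rfl fun j _ => e1 j, Finset.sum_range_sub a (n + 1), abs_mul,
          abs_of_pos (inv_pos.2 (hn n)), mul_comm, ha]
        refine mul_le_mul_of_nonneg_right ?_ (inv_nonneg.2 (hn n).le)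
        refine (abs_sub _ _).trans ?_
        have e2 := hm.abs_le (F := fun x => F (x * g ^ (n + 1))) fun x => hC _
        have e3 := hm.abs_le (F := fun x => F (x * g ^ 0)) fun x => hC _
        linarith
      refine squeeze_zero_norm h3 ?_
      have h4 : Tendsto (fun n : ℕ => (n : ℝ) + 1) atTop atTop :=
        tendsto_atTop_add_const_right _ _ tendsto_natCast_atTop_atTop
      have h5 := (tendsto_inv_atTop_zero.comp h4).const_mul (2 * C)
      rw [mul_zero] at h5
      exact h5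
    have h3 := tendsto_nhds_unique h1 (h2.mono_left hle)
    linarith
  · refine tendsto_nhds_unique (hlim _ (bdd_comp hF (fun x => x * s))) ?_
    refine (hlim F hF).congr fun n => ?_
    simp only [hMd]
    congr 1
    refine Finset.sum_congr rfl fun j _ => ?_
    have h1 := hs (fun x => F (x * g ^ j)) (bdd_comp hF _)
    rw [← h1]
    congr 1
    funext x
    rw [mul_right_comm]

/-- commutative groups are amenable -/
theorem amenable_comm [CommGroup Γ] : ∃ m : (Γ → ℝ) → ℝ, IsMean m := by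
  classical
  have hfin : ∀ S : Finset Γ, ∃ m : (Γ → ℝ) → ℝ, PM m ∧ ∀ s ∈ S, Inv m s := by
    intro S
    induction S using Finset.induction_on with
    | empty =>
      exact ⟨fun F => F 1, ⟨fun _ _ _ _ => rfl, fun _ _ _ => rfl, fun _ _ h => h 1, rfl⟩,
        fun s hs => absurd hs (Finset.notMem_empty s)⟩
    | insert g S hg ih =>
      obtain ⟨m, hm, hS⟩ := ih
      obtain ⟨m', hm', h1, h2⟩ := step_mean hm g
      refine ⟨m', hm', fun s hs => ?_⟩
      rcases Finset.mem_insert.1 hs with rfl | hs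
      · exact h1
      · exact h2 s (hS s hs)
  choose M hM hS using hfin
  obtain ⟨m, hm, hlim⟩ := lim_mean (Ultrafilter.of (atTop : Filter (Finset Γ))) M hM
  refine ⟨m, ⟨hm.add, hm.smul, hm.nonneg, hm.one, fun g F hF => ?_⟩⟩
  refine tendsto_nhds_unique (hlim _ (bdd_comp hF (fun x => x * g))) ?_
  refine (hlim F hF).congr' ?_
  have h1 : ∀ᶠ S : Finset Γ in atTop, g ∈ S := by
    filter_upwards [eventually_ge_atTop ({g} : Finset Γ)] with S hS
    exact hS (Finset.mem_singleton_self g)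
  filter_upwards [(Ultrafilter.of_le (atTop : Filter (Finset Γ))) h1] with S hgS
  exact (hS S g hgS F hF).symm

end Pool.Agent.K7.H28.ST
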