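import Pool.Agent.K7.H28.ST.T1
import Pool.Agent.Y153.SY.Avg

/-!
Averages over the second factor of functions on a product.
-/

set_option autoImplicit false

open Set Filter Topology
open scoped ContDiff

noncomputable section

namespace Pool.Agent.K7.H28.ST

open Pool.Agent.Y501.SY

section aff

variable {G P H : Type} [NormedAddCommGroup G] [NormedSpace ℝ G] [NormedAddCommGroup P]
  [NormedSpace ℝ P] [NormedAddCommGroup H] [NormedSpace ℝ H]

/-- the iterated derivatives of the composition with an affine map -/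
theorem aff_norm {g : P → H} {S : Set P} (hS : IsOpen S) (hg : ContDiffOn ℝ ∞ g S)
    (L : G →L[ℝ] P) (a : P) {x : G} (hx : L x + a ∈ S) (n : ℕ) :
    ‖iteratedFDeriv ℝ n (fun x => g (L x + a)) x‖ ≤
      ‖iteratedFDeriv ℝ n g (L x + a)‖ * ‖L‖ ^ n := by
  have hta : ContDiff ℝ ∞ (fun z : P => z + a) := contDiff_id.add contDiff_const
  have hS' : IsOpen ((fun z : P => z + a) ⁻¹' S) := hS.preimage hta.continuous
  have hg' : ContDiffOn ℝ ∞ (fun z : P => g (z + a)) ((fun z : P => z + a) ⁻¹' S) :=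
    hg.comp hta.contDiffOn fun z hz => hz
  have hS'' : IsOpen (L ⁻¹' ((fun z : P => z + a) ⁻¹' S)) := hS'.preimage L.continuous
  have hx' : L x ∈ (fun z : P => z + a) ⁻¹' S := hx
  have h1 := L.iteratedFDerivWithin_comp_right hg' hS'.uniqueDiffOn hS''.uniqueDiffOn hx'
    (i := n) (by exact_mod_cast le_top)
  rw [iteratedFDerivWithin_of_isOpen n hS'' (show x ∈ _ from hx'),
    iteratedFDerivWithin_of_isOpen n hS' hx'] at h1
  have h2 : iteratedFDeriv ℝ n (fun z : P => g (z + a)) (L x) =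
      iteratedFDeriv ℝ n g (L x + a) := iteratedFDeriv_comp_add_right n a (L x)
  rw [h2] at h1
  have h3 : iteratedFDeriv ℝ n (fun x => g (L x + a)) x =
      (iteratedFDeriv ℝ n g (L x + a)).compContinuousLinearMap fun _ => L := h1
  rw [h3]
  refine (ContinuousMultilinearMap.norm_compContinuousLinearMap_le _ _).trans (le_of_eq ?_)
  rw [Finset.prod_const, Finset.card_univ, Fintype.card_fin]

end aff

variable {d q : ℕ}

/-- smooth functions on a product, all of whose iterated derivatives are bounded, uniformly in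
the second variable and locally uniformly in the first one -/
def BD {H : Type} [NormedAddCommGroup H] [NormedSpace ℝ H] (g : E d × E q → H)
    (U : Set (E d)) : Prop :=
  ContDiffOn ℝ ∞ g (U ×ˢ univ) ∧ ∀ n : ℕ, ∀ p ∈ U, ∃ N ∈ 𝓝 p, ∃ C : ℝ, ∀ p' ∈ N,
    ∀ t : E q, ‖iteratedFDeriv ℝ n g (p', t)‖ ≤ C

theorem pow_one_le {G P : Type} [NormedAddCommGroup G] [NormedSpace ℝ G] [NormedAddCommGroup P]
    [NormedSpace ℝ P] {L : G →L[ℝ] P} (h : ‖L‖ ≤ 1) (n : ℕ) : ‖L‖ ^ n ≤ 1 :=
  pow_le_one₀ (norm_nonneg _) h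

theorem inl_le : ‖ContinuousLinearMap.inl ℝ (E d) (E q)‖ ≤ 1 :=
  ContinuousLinearMap.opNorm_le_bound _ zero_le_one fun x => by
    rw [ContinuousLinearMap.inl_apply, Prod.norm_def, norm_zero, one_mul]
    exact max_le le_rfl (norm_nonneg x)

theorem inr_le : ‖ContinuousLinearMap.inr ℝ (E d) (E q)‖ ≤ 1 :=
  ContinuousLinearMap.opNorm_le_bound _ zero_le_one fun x => by
    rw [ContinuousLinearMap.inr_apply, Prod.norm_def, norm_zero, one_mul]
    exact max_le (norm_nonneg x) le_rfl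

section

variable {U : Set (E d)} {g : E d × E q → ℝ}

theorem BD.slice (hU : IsOpen U) (hg : BD g U) :
    UnifBdd (fun (γ : Multiplicative (E q)) (p : E d) => g (p, Multiplicative.toAdd γ)) U := by
  have hS : IsOpen (U ×ˢ (univ : Set (E q))) := hU.prod isOpen_univ
  refine ⟨fun γ => ?_, fun n p hp => ?_⟩
  · have h1 : ContDiff ℝ ∞ (fun p : E d => (p, Multiplicative.toAdd γ)) :=
      contDiff_id.prodMk contDiff_const
    exact hg.1.comp h1.contDiffOn fun p hp => ⟨hp, trivial⟩
  · obtain ⟨N, hN, C, hC⟩ := hg.2 n p hp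
    refine ⟨N ∩ U, inter_mem hN (hU.mem_nhds hp), C, fun p' hp' γ => ?_⟩
    have e : ∀ x : E d, ContinuousLinearMap.inl ℝ (E d) (E q) x +
        ((0 : E d), Multiplicative.toAdd γ) = (x, Multiplicative.toAdd γ) := by
      intro x
      rw [ContinuousLinearMap.inl_apply, Prod.mk_add_mk, add_zero, zero_add]
    have h1 := aff_norm hS hg.1 (ContinuousLinearMap.inl ℝ (E d) (E q))
      ((0 : E d), Multiplicative.toAdd γ) (x := p') (by rw [e]; exact ⟨hp'.2, trivial⟩) n
    simp only [e] at h1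
    refine h1.trans ?_
    refine (mul_le_of_le_one_right (norm_nonneg _) (pow_one_le inl_le n)).trans ?_
    exact hC p' hp'.1 _

theorem BD.slice2 (hU : IsOpen U) (hg : BD g U) {p : E d} (hp : p ∈ U) :
    UnifBdd (fun (γ : Multiplicative (E q)) (s : E q) => g (p, Multiplicative.toAdd γ + s))
      univ := by
  have hS : IsOpen (U ×ˢ (univ : Set (E q))) := hU.prod isOpen_univ
  refine ⟨fun γ => ?_, fun n s _ => ?_⟩
  · have h1 : ContDiff ℝ ∞ (fun s : E q => (p, Multiplicative.toAdd γ + s)) :=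
      contDiff_const.prodMk (contDiff_const.add contDiff_id)
    exact hg.1.comp h1.contDiffOn fun s _ => ⟨hp, trivial⟩
  · obtain ⟨N, hN, C, hC⟩ := hg.2 n p hp
    refine ⟨univ, univ_mem, C, fun s' _ γ => ?_⟩
    have e : ∀ x : E q, ContinuousLinearMap.inr ℝ (E d) (E q) x +
        (p, Multiplicative.toAdd γ) = (p, Multiplicative.toAdd γ + x) := by
      intro x
      rw [ContinuousLinearMap.inr_apply, Prod.mk_add_mk, zero_add, add_comm]
    have h1 := aff_norm hS hg.1 (ContinuousLinearMap.inr ℝ (E d) (E q))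
      (p, Multiplicative.toAdd γ) (x := s') (by rw [e]; exact ⟨hp, trivial⟩) n
    simp only [e] at h1
    refine h1.trans ?_
    refine (mul_le_of_le_one_right (norm_nonneg _) (pow_one_le inr_le n)).trans ?_
    exact hC p (mem_of_mem_nhds hN) _

theorem BD.diffAt (hU : IsOpen U) (hg : BD g U) {p : E d} (hp : p ∈ U) (t : E q) :
    DifferentiableAt ℝ g (p, t) :=
  (hg.1.contDiffAt ((hU.prod isOpen_univ).mem_nhds ⟨hp, trivial⟩)).differentiableAt (by simp)

/-- the average over the second factor -/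
def Mg (m : (Multiplicative (E q) → ℝ) → ℝ) (g : E d × E q → ℝ) (p : E d) : ℝ :=
  m (fun γ => g (p, Multiplicative.toAdd γ))

theorem BD.bdd (hU : IsOpen U) (hg : BD g U) {p : E d} (hp : p ∈ U) :
    Bdd (fun γ : Multiplicative (E q) => g (p, Multiplicative.toAdd γ)) :=
  Pool.Agent.Y153.SY.bdd_val (hg.slice hU) hp

theorem BD.bdd_fderiv (hg : BD g U) {p : E d} (hp : p ∈ U)
    (z : E d × E q) :
    Bdd (fun γ : Multiplicative (E q) => fderiv ℝ g (p, Multiplicative.toAdd γ) z) := by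
  obtain ⟨N, hN, C, hC⟩ := hg.2 1 p hp
  refine ⟨C * ‖z‖, fun γ => ?_⟩
  have h1 := hC p (mem_of_mem_nhds hN) (Multiplicative.toAdd γ)
  have h2 : ‖fderiv ℝ g (p, Multiplicative.toAdd γ)‖ ≤ C := by
    rwa [← norm_iteratedFDeriv_zero (𝕜 := ℝ) (f := fderiv ℝ g), norm_iteratedFDeriv_fderiv]
  refine ((fderiv ℝ g (p, Multiplicative.toAdd γ)).le_opNorm z).trans ?_
  exact mul_le_mul_of_nonneg_right h2 (norm_nonneg _)

variable {m : (Multiplicative (E q) → ℝ) → ℝ}

theorem BD.smooth_mean (hm : IsMean m) (hU : IsOpen U) (hg : BD g U) :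
    ContDiffOn ℝ ∞ (Mg m g) U :=
  (Pool.Agent.Y153.SY.t_AVG d (Multiplicative (E q)) m hm U _ hU (hg.slice hU)).1

theorem BD.fderiv_left (hm : IsMean m) (hU : IsOpen U) (hg : BD g U) {p : E d} (hp : p ∈ U)
    (u : E d) : m (fun γ => fderiv ℝ g (p, Multiplicative.toAdd γ) (u, 0)) =
      fderiv ℝ (Mg m g) p u := by
  have h1 := (Pool.Agent.Y153.SY.t_AVG d (Multiplicative (E q)) m hm U _ hU (hg.slice hU)).2
    p hp u
  have h2 : fderiv ℝ (Mg m g) p u = m (fun γ : Multiplicative (E q) =>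
      fderiv ℝ (fun p => g (p, Multiplicative.toAdd γ)) p u) := h1
  rw [h2]
  congr 1
  funext γ
  have h3 : HasFDerivAt (fun p : E d => (p, Multiplicative.toAdd γ))
      (ContinuousLinearMap.inl ℝ (E d) (E q)) p :=
    (hasFDerivAt_id p).prodMk (hasFDerivAt_const _ _)
  have h4 := ((hg.diffAt hU hp (Multiplicative.toAdd γ)).hasFDerivAt.comp p h3).fderiv
  have h5 : fderiv ℝ (fun p => g (p, Multiplicative.toAdd γ)) p =
      (fderiv ℝ g (p, Multiplicative.toAdd γ)).comp (ContinuousLinearMap.inl ℝ (E d) (E q)) := h4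
  rw [h5]
  rfl

theorem BD.fderiv_right (hm : IsMean m) (hU : IsOpen U) (hg : BD g U) {p : E d} (hp : p ∈ U)
    (s : E q) : m (fun γ => fderiv ℝ g (p, Multiplicative.toAdd γ) (0, s)) = 0 := by
  have h1 := (Pool.Agent.Y153.SY.t_AVG q (Multiplicative (E q)) m hm univ _ isOpen_univ
    (hg.slice2 hU hp)).2 0 (mem_univ _) s
  have h2 : (fun s : E q => m (fun γ => g (p, Multiplicative.toAdd γ + s))) =
      fun _ => Mg m g p := by
    funext s
    have h3 := hm.inv (Multiplicative.ofAdd s)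
      (fun γ => g (p, Multiplicative.toAdd γ)) (hg.bdd hU hp)
    exact h3
  have h3 : fderiv ℝ (fun s : E q => m (fun γ => g (p, Multiplicative.toAdd γ + s))) 0 s = 0 := by
    rw [h2]
    simp
  rw [h3] at h1
  rw [h1]
  congr 1
  funext γ
  have h4 : HasFDerivAt (fun s : E q => (p, Multiplicative.toAdd γ + s))
      (ContinuousLinearMap.inr ℝ (E d) (E q)) 0 :=
    (hasFDerivAt_const _ _).prodMk ((hasFDerivAt_id (0 : E q)).const_add _)
  have h0 : DifferentiableAt ℝ g (p, Multiplicative.toAdd γ + (0 : E q)) := by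
    rw [add_zero]
    exact hg.diffAt hU hp (Multiplicative.toAdd γ)
  have h5 := (h0.hasFDerivAt.comp (0 : E q) h4).fderiv
  have h6 : fderiv ℝ (fun s : E q => g (p, Multiplicative.toAdd γ + s)) 0 =
      (fderiv ℝ g (p, Multiplicative.toAdd γ + (0 : E q))).comp
        (ContinuousLinearMap.inr ℝ (E d) (E q)) := h5
  rw [h6, add_zero]
  rfl

/-- the derivative of the average -/
theorem BD.fderiv_mean (hm : IsMean m) (hU : IsOpen U) (hg : BD g U) {p : E d} (hp : p ∈ U)
    (z : E d × E q) : m (fun γ => fderiv ℝ g (p, Multiplicative.toAdd γ) z) =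
      fderiv ℝ (Mg m g) p z.1 := by
  have h1 : (fun γ : Multiplicative (E q) => fderiv ℝ g (p, Multiplicative.toAdd γ) z) =
      fun γ => fderiv ℝ g (p, Multiplicative.toAdd γ) (z.1, 0) +
        fderiv ℝ g (p, Multiplicative.toAdd γ) (0, z.2) := by
    funext γ
    rw [← map_add]
    congr 1
    rw [Prod.mk_add_mk, add_zero, zero_add]
  rw [h1, hm.add _ _ (hg.bdd_fderiv hp _) (hg.bdd_fderiv hp _), hg.fderiv_left hm hU hp,
    hg.fderiv_right hm hU hp, add_zero]

end

end Pool.Agent.K7.H28.ST
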