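import Pool.Agent.K7.H28.ST.T2
import Pool.Agent.Y141.SY.Mean
import Pool.Agent.Y455.SY.Pert

/-!
Averages over the second factor of closed two-forms on the product of a manifold and of a vector
space.
-/

set_option autoImplicit false

open Set Filter Topology
open scoped Manifold ContDiff

noncomputable section

namespace Pool.Agent.K7.H28.ST

open Pool.Agent.Y501.SY

section lin

/-- the mean of bounded alternating maps -/
theorem exists_avgV {Γ : Type} [Group Γ] {m : (Γ → ℝ) → ℝ} (hm : IsMean m) {V : Type}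
    [NormedAddCommGroup V] [NormedSpace ℝ V] (F : Γ → V [⋀^Fin 2]→L[ℝ] ℝ)
    (hF : ∃ C : ℝ, ∀ γ, ‖F γ‖ ≤ C) :
    ∃ α : V [⋀^Fin 2]→L[ℝ] ℝ, ∀ u, α u = m (fun γ => F γ u) := by
  obtain ⟨C, hC0⟩ := hF
  have hC : ∀ γ u, |F γ u| ≤ C * ∏ i, ‖u i‖ := fun γ u =>
    ((F γ).le_opNorm u).trans (mul_le_mul_of_nonneg_right (hC0 γ)
      (Finset.prod_nonneg fun i _ => norm_nonneg _))
  have hb : ∀ u, Bdd (fun γ => F γ u) := fun u => ⟨_, fun γ => hC γ u⟩
  let f : V [⋀^Fin 2]→ₗ[ℝ] ℝ :=
    { toFun := fun u => m (fun γ => F γ u)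
      map_update_add' := by
        intro _ u i x y
        have h1 : ∀ γ, F γ (Function.update u i (x + y)) =
            F γ (Function.update u i x) + F γ (Function.update u i y) := fun γ => by
          convert (F γ).map_update_add u i x y
        simp only [h1]
        exact hm.add _ _ (hb _) (hb _)
      map_update_smul' := by
        intro _ u i c x
        have h1 : ∀ γ, F γ (Function.update u i (c • x)) =
            c * F γ (Function.update u i x) := fun γ => by
          rw [← smul_eq_mul]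
          convert (F γ).map_update_smul u i c x
        simp only [h1]
        exact hm.smul _ _ (hb _)
      map_eq_zero_of_eq' := by
        intro u i j hij hne
        have h1 : ∀ γ, F γ u = 0 := fun γ => (F γ).map_eq_zero_of_eq u hij hne
        simp only [h1]
        exact Pool.Agent.Y141.SY.mean_const hm 0 }
  exact ⟨AlternatingMap.mkContinuous f C fun u =>
    Pool.Agent.Y141.SY.mean_abs hm fun γ => hC γ u, fun u => rfl⟩

end lin

section bd

variable {d q : ℕ} {H H' : Type} [NormedAddCommGroup H] [NormedSpace ℝ H]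
  [NormedAddCommGroup H'] [NormedSpace ℝ H'] {U : Set (E d)}

theorem BD.clm (hU : IsOpen U) {g : E d × E q → H} (hg : BD g U) (L : H →L[ℝ] H') :
    BD (fun z => L (g z)) U := by
  refine ⟨L.contDiff.comp_contDiffOn hg.1, fun n p hp => ?_⟩
  obtain ⟨N, hN, C, hC⟩ := hg.2 n p hp
  refine ⟨N ∩ U, inter_mem hN (hU.mem_nhds hp), ‖L‖ * C, fun p' hp' t => ?_⟩
  have h1 : ContDiffAt ℝ ∞ g (p', t) :=
    hg.1.contDiffAt ((hU.prod isOpen_univ).mem_nhds ⟨hp'.2, trivial⟩)
  have h2 : iteratedFDeriv ℝ n (fun z => L (g z)) (p', t) =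
      L.compContinuousMultilinearMap (iteratedFDeriv ℝ n g (p', t)) :=
    L.iteratedFDeriv_comp_left h1 (by exact_mod_cast le_top)
  rw [h2]
  refine (L.norm_compContinuousMultilinearMap_le _).trans ?_
  exact mul_le_mul_of_nonneg_left (hC p' hp'.1 t) (norm_nonneg _)

end bd

section

variable {d q : ℕ} {X : Type} [TopologicalSpace X] [ChartedSpace (E d) X]

variable (d q X) in
/-- two-forms on the product of `X` and of `E q` -/
abbrev PForm : Type := (x : X) → E q → (TangentSpace (𝓡 d) x × E q) [⋀^Fin 2]→L[ℝ] ℝ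

/-- the pull-back by `φ × id` -/
def ppb (φ : E d → X) (om : PForm d q X) (z : E d × E q) : (E d × E q) [⋀^Fin 2]→L[ℝ] ℝ :=
  (om (φ z.1) z.2).compContinuousLinearMap
    ((mfderiv (𝓡 d) (𝓡 d) φ z.1).prodMap (ContinuousLinearMap.id ℝ (E q)))

/-- closed two-forms with bounded derivatives on the product of `X` and of `E q`, which are
uniformly nondegenerate along the second factor -/
structure PHyp (om : PForm d q X) : Prop where
  bd : ∀ (U : Set (E d)) (φ : E d → X), IsOpen U → ContMDiffOn (𝓡 d) (𝓡 d) ∞ φ U →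
    BD (ppb φ om) U
  closed : ∀ (U : Set (E d)) (φ : E d → X), IsOpen U → ContMDiffOn (𝓡 d) (𝓡 d) ∞ φ U →
    ∀ p ∈ U, ∀ t : E q, extDeriv (ppb φ om) (p, t) = 0
  nd : ∀ (x : X) (v : TangentSpace (𝓡 d) x × E q), v ≠ 0 →
    ∃ w : TangentSpace (𝓡 d) x × E q, ∃ c : ℝ, 0 < c ∧ ∀ t : E q, c ≤ om x t ![v, w]

/-- the values of a form as forms on `E d × E q` -/
def fib (om : PForm d q X) (x : X) (t : E q) : (E d × E q) [⋀^Fin 2]→L[ℝ] ℝ := om x t

variable [IsManifold (𝓡 d) ∞ X]

/-- the derivative of the inverse chart, extended to the product -/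
def AW (q : ℕ) (x : X) (p : E d) : (E d × E q) →L[ℝ] (E d × E q) :=
  (Pool.Agent.Y455.SY.A x p).prodMap (ContinuousLinearMap.id ℝ (E q))

/-- the derivative of the chart, extended to the product -/
def BW (q : ℕ) (x : X) (p : E d) : (E d × E q) →L[ℝ] (E d × E q) :=
  (Pool.Agent.Y455.SY.B x p).prodMap (ContinuousLinearMap.id ℝ (E q))

theorem AWBW (x : X) {p : E d} (hp : p ∈ (chartAt (E d) x).target) (v : E d × E q) :
    AW q x p (BW q x p v) = v := by
  change (Pool.Agent.Y455.SY.A x p (Pool.Agent.Y455.SY.B x p v.1), v.2) = v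
  rw [Pool.Agent.Y455.SY.AB x hp]

theorem BWAW (x : X) {p : E d} (hp : p ∈ (chartAt (E d) x).target) (v : E d × E q) :
    BW q x p (AW q x p v) = v := by
  change (Pool.Agent.Y455.SY.B x p (Pool.Agent.Y455.SY.A x p v.1), v.2) = v
  rw [Pool.Agent.Y455.SY.BA x hp]

theorem fib_bdd {om : PForm d q X} (h : PHyp om) (x : X) :
    ∃ C : ℝ, ∀ t : E q, ‖fib om x t‖ ≤ C := by
  set c := chartAt (E d) x with hc
  have hpt : c x ∈ c.target := mem_chart_target (E d) x
  obtain ⟨N, hN, C, hC⟩ := (h.bd c.target c.symm c.open_target contMDiffOn_chart_symm).2 0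
    (c x) hpt
  have hC' : ∀ t : E q, ‖ppb c.symm om (c x, t)‖ ≤ C := fun t => by
    have := hC (c x) (mem_of_mem_nhds hN) t
    rwa [norm_iteratedFDeriv_zero] at this
  have key : ∀ y : X, y = x → ∀ t : E q,
      ((om y t : (E d × E q) [⋀^Fin 2]→L[ℝ] ℝ).compContinuousLinearMap (AW q x (c x))
        ).compContinuousLinearMap (BW q x (c x)) = fib om x t := by
    rintro y rfl t
    ext v
    change fib om y t (fun i => AW q y (c y) (BW q y (c y) (v i))) = fib om y t v
    congr 1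
    funext i
    exact AWBW y hpt _
  refine ⟨C * ‖BW q x (c x)‖ ^ 2, fun t => ?_⟩
  rw [← key (c.symm (c x)) (c.left_inv (mem_chart_source (E d) x)) t]
  refine (ContinuousAlternatingMap.norm_compContinuousLinearMap_le _ _).trans ?_
  rw [Fintype.card_fin]
  exact mul_le_mul_of_nonneg_right (hC' t) (by positivity)

variable {m : (Multiplicative (E q) → ℝ) → ℝ}

/-- the average of the form over the second factor -/
theorem exists_om (hm : IsMean m) {om : PForm d q X} (h : PHyp om) :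
    ∃ av : X → (E d × E q) [⋀^Fin 2]→L[ℝ] ℝ, ∀ (x : X) (u : Fin 2 → E d × E q),
      av x u = m (fun γ => fib om x (Multiplicative.toAdd γ) u) := by
  have h1 := fun x : X => exists_avgV hm (fun γ : Multiplicative (E q) =>
    fib om x (Multiplicative.toAdd γ)) (by
      obtain ⟨C, hC⟩ := fib_bdd h x
      exact ⟨C, fun γ => hC _⟩)
  choose av hav using h1
  exact ⟨av, hav⟩

/-- the coefficients of the form -/
def co (φ : E d → X) (om : PForm d q X) (v w : E d × E q) (z : E d × E q) : ℝ :=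
  ppb φ om z ![v, w]

omit [IsManifold (𝓡 d) ∞ X] in
theorem co_bd {om : PForm d q X} (h : PHyp om) {U : Set (E d)} {φ : E d → X} (hU : IsOpen U)
    (hφ : ContMDiffOn (𝓡 d) (𝓡 d) ∞ φ U) (v w : E d × E q) : BD (co φ om v w) U :=
  (h.bd U φ hU hφ).clm hU (ContinuousAlternatingMap.apply ℝ (E d × E q) ℝ ![v, w])

omit [IsManifold (𝓡 d) ∞ X] in
theorem co_avg {om : PForm d q X} {av : X → (E d × E q) [⋀^Fin 2]→L[ℝ] ℝ}
    (hav : ∀ (x : X) (u : Fin 2 → E d × E q),
      av x u = m (fun γ => fib om x (Multiplicative.toAdd γ) u)) (φ : E d → X)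
    (v w : E d × E q) (p : E d) : av (φ p)
      ![(mfderiv (𝓡 d) (𝓡 d) φ p v.1, v.2), (mfderiv (𝓡 d) (𝓡 d) φ p w.1, w.2)] =
      Mg m (co φ om v w) p := by
  rw [hav]
  unfold Mg
  congr 1
  funext γ
  change _ = om (φ p) (Multiplicative.toAdd γ) (fun i =>
    ((mfderiv (𝓡 d) (𝓡 d) φ p).prodMap (ContinuousLinearMap.id ℝ (E q)))
      ((![v, w] : Fin 2 → E d × E q) i))
  unfold fib
  congr 1
  funext i
  fin_cases i <;> rfl

omit [IsManifold (𝓡 d) ∞ X] in
/-- the closedness of the form in terms of its coefficients -/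
theorem co_closed {om : PForm d q X} (h : PHyp om) {U : Set (E d)} {φ : E d → X}
    (hU : IsOpen U) (hφ : ContMDiffOn (𝓡 d) (𝓡 d) ∞ φ U) {p : E d} (hp : p ∈ U) (t : E q)
    (u v w : E d × E q) : fderiv ℝ (co φ om v w) (p, t) u -
      fderiv ℝ (co φ om u w) (p, t) v + fderiv ℝ (co φ om u v) (p, t) w = 0 := by
  have h1 := h.closed U φ hU hφ p hp t
  have hd : DifferentiableAt ℝ (ppb φ om) (p, t) :=
    ((h.bd U φ hU hφ).1.contDiffAt
      ((hU.prod isOpen_univ).mem_nhds ⟨hp, trivial⟩)).differentiableAt (by simp)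
  have h2 := extDeriv_apply hd ![u, v, w]
  rw [h1, Fin.sum_univ_three] at h2
  have e0 : Fin.removeNth (0 : Fin 3) ![u, v, w] = ![v, w] := by
    funext i
    fin_cases i <;> rfl
  have e1 : Fin.removeNth (1 : Fin 3) ![u, v, w] = ![u, w] := by
    funext i
    fin_cases i <;> rfl
  have e2 : Fin.removeNth (2 : Fin 3) ![u, v, w] = ![u, v] := by
    funext i
    fin_cases i <;> rfl
  rw [e0, e1, e2] at h2
  have h3 : (0 : (E d × E q) [⋀^Fin 3]→L[ℝ] ℝ) ![u, v, w] = 0 := rfl
  rw [h3] at h2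
  simp at h2
  change 0 = fderiv ℝ (co φ om v w) (p, t) u + -fderiv ℝ (co φ om u w) (p, t) v +
    fderiv ℝ (co φ om u v) (p, t) w at h2
  linarith

/-- the closedness of the average in terms of its coefficients -/
theorem avg_closed (hm : IsMean m) {om : PForm d q X} (h : PHyp om) {U : Set (E d)}
    {φ : E d → X} (hU : IsOpen U) (hφ : ContMDiffOn (𝓡 d) (𝓡 d) ∞ φ U) {p : E d} (hp : p ∈ U)
    (u v w : E d × E q) : fderiv ℝ (Mg m (co φ om v w)) p u.1 -
      fderiv ℝ (Mg m (co φ om u w)) p v.1 + fderiv ℝ (Mg m (co φ om u v)) p w.1 = 0 := by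
  have b1 := (co_bd h hU hφ v w).bdd_fderiv hp u
  have b2 := (co_bd h hU hφ u w).bdd_fderiv hp v
  have b3 := (co_bd h hU hφ u v).bdd_fderiv hp w
  rw [← (co_bd h hU hφ v w).fderiv_mean hm hU hp u, ← (co_bd h hU hφ u w).fderiv_mean hm hU hp v,
    ← (co_bd h hU hφ u v).fderiv_mean hm hU hp w, ← Pool.Agent.Y153.SY.m_sub hm b1 b2,
    ← hm.add _ _ (Pool.Agent.Y153.SY.bdd_sub b1 b2) b3]
  have h2 : (fun γ : Multiplicative (E q) =>
      fderiv ℝ (co φ om v w) (p, Multiplicative.toAdd γ) u -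
      fderiv ℝ (co φ om u w) (p, Multiplicative.toAdd γ) v +
      fderiv ℝ (co φ om u v) (p, Multiplicative.toAdd γ) w) = fun _ => 0 := by
    funext γ
    exact co_closed h hU hφ hp _ u v w
  rw [h2]
  exact Pool.Agent.Y141.SY.mean_const hm 0

end

end Pool.Agent.K7.H28.ST
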