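import Pool.Agent.K7.H28.ST.T3
import Pool.Agent.Y501.SY.PairL

/-!
The components of the average.
-/

set_option autoImplicit false

open Set Filter Topology
open scoped Manifold ContDiff

noncomputable section

namespace Pool.Agent.K7.H28.ST

open Pool.Agent.Y501.SY

section lin

variable {V : Type} [NormedAddCommGroup V] [NormedSpace ℝ V]

omit [NormedAddCommGroup V] [NormedSpace ℝ V] in
theorem upd0 (u v w : V) : Function.update (![v, w] : Fin 2 → V) 0 u = ![u, w] := by
  ext i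
  fin_cases i <;> simp

omit [NormedAddCommGroup V] [NormedSpace ℝ V] in
theorem upd1 (u v w : V) : Function.update (![v, w] : Fin 2 → V) 1 u = ![v, u] := by
  ext i
  fin_cases i <;> simp

theorem al_add0 (η : V [⋀^Fin 2]→L[ℝ] ℝ) (u v w : V) :
    η ![u + v, w] = η ![u, w] + η ![v, w] := by
  have h := η.map_update_add ![0, w] 0 u v
  rwa [upd0, upd0, upd0] at h

theorem al_smul0 (η : V [⋀^Fin 2]→L[ℝ] ℝ) (c : ℝ) (u w : V) :
    η ![c • u, w] = c * η ![u, w] := by
  have h := η.map_update_smul ![0, w] 0 c u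
  rwa [upd0, upd0, smul_eq_mul] at h

theorem al_swap (η : V [⋀^Fin 2]→L[ℝ] ℝ) (u w : V) : η ![u, w] = - η ![w, u] := by
  have h := η.toAlternatingMap.map_swap ![w, u] (i := 0) (j := 1) (by decide)
  have e : (![w, u] : Fin 2 → V) ∘ Equiv.swap (0 : Fin 2) 1 = ![u, w] := by
    funext i
    fin_cases i <;> simp
  rw [e] at h
  exact h

theorem al_add1 (η : V [⋀^Fin 2]→L[ℝ] ℝ) (u v w : V) :
    η ![u, v + w] = η ![u, v] + η ![u, w] := by
  rw [al_swap, al_add0, al_swap η u v, al_swap η u w]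
  ring

theorem al_smul1 (η : V [⋀^Fin 2]→L[ℝ] ℝ) (c : ℝ) (u w : V) :
    η ![u, c • w] = c * η ![u, w] := by
  rw [al_swap, al_smul0, al_swap η u w]
  ring

/-- a two-form with a fixed second argument -/
def cur (η : V [⋀^Fin 2]→L[ℝ] ℝ) (w : V) : V →L[ℝ] ℝ :=
  LinearMap.mkContinuous
    { toFun := fun u => η ![u, w]
      map_add' := fun u v => al_add0 η u v w
      map_smul' := fun c u => al_smul0 η c u w } (‖η‖ * ‖w‖) fun u => by
    have h := η.le_opNorm ![u, w]
    rw [Fin.prod_univ_two] at h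
    refine h.trans (le_of_eq ?_)
    change ‖η‖ * (‖u‖ * ‖w‖) = _
    ring

theorem cur_apply (η : V [⋀^Fin 2]→L[ℝ] ℝ) (w u : V) : cur η w u = η ![u, w] := rfl

end lin

section

variable {d q : ℕ} {X : Type} [TopologicalSpace X] [ChartedSpace (E d) X]

/-- the basis vectors of the second factor -/
def ee (i : Fin q) : E d × E q := (0, EuclideanSpace.single i 1)

/-- the restriction to `X` -/
def w0 (av : X → (E d × E q) [⋀^Fin 2]→L[ℝ] ℝ) : Form d X 2 := fun x =>
  (av x).compContinuousLinearMap (ContinuousLinearMap.inl ℝ (E d) (E q))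

/-- the mixed components -/
def ai (av : X → (E d × E q) [⋀^Fin 2]→L[ℝ] ℝ) (i : Fin q) (x : X) : E d →L[ℝ] ℝ :=
  (cur (av x) (ee i)).comp (ContinuousLinearMap.inl ℝ (E d) (E q))

/-- the wedge products of the mixed components -/
def Wij (av : X → (E d × E q) [⋀^Fin 2]→L[ℝ] ℝ) (i j : Fin q) : Form d X 2 := fun x =>
  wedge (V := E d) (ai av i x) (ai av j x)

/-- the components in the second factor -/
def Fij (av : X → (E d × E q) [⋀^Fin 2]→L[ℝ] ℝ) (x : X) : Matrix (Fin q) (Fin q) ℝ :=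
  fun i j => av x ![ee i, ee j]

variable {m : (Multiplicative (E q) → ℝ) → ℝ} {om : PForm d q X}
  {av : X → (E d × E q) [⋀^Fin 2]→L[ℝ] ℝ}

theorem pb_w0 (hav : ∀ (x : X) (u : Fin 2 → E d × E q),
      av x u = m (fun γ => fib om x (Multiplicative.toAdd γ) u)) (φ : E d → X) (u v p : E d) :
    pb φ (w0 av) p ![u, v] = Mg m (co φ om (u, 0) (v, 0)) p := by
  rw [← co_avg hav]
  change av (φ p) (fun i => ContinuousLinearMap.inl ℝ (E d) (E q)
    (mfderiv (𝓡 d) (𝓡 d) φ p ((![u, v] : Fin 2 → E d) i))) = _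
  congr 1
  funext i
  fin_cases i <;> rfl

theorem pb_ai (hav : ∀ (x : X) (u : Fin 2 → E d × E q),
      av x u = m (fun γ => fib om x (Multiplicative.toAdd γ) u)) (φ : E d → X) (i : Fin q)
    (u p : E d) :
    ai av i (φ p) (mfderiv (𝓡 d) (𝓡 d) φ p u) = Mg m (co φ om (u, 0) (ee i)) p := by
  rw [← co_avg hav]
  change av (φ p) ![(mfderiv (𝓡 d) (𝓡 d) φ p u, 0), ee i] = _
  congr 1
  funext j
  fin_cases j
  · rfl
  · change ee i = (mfderiv (𝓡 d) (𝓡 d) φ p 0, EuclideanSpace.single i 1)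
    rw [map_zero]
    rfl

theorem pb_Fij (hav : ∀ (x : X) (u : Fin 2 → E d × E q),
      av x u = m (fun γ => fib om x (Multiplicative.toAdd γ) u)) (φ : E d → X) (i j : Fin q)
    (p : E d) :
    Fij av (φ p) i j = Mg m (co φ om (ee i) (ee j)) p := by
  rw [← co_avg hav]
  change av (φ p) ![ee i, ee j] = _
  congr 1
  funext k
  fin_cases k
  · change ee i = (mfderiv (𝓡 d) (𝓡 d) φ p 0, EuclideanSpace.single i 1)
    rw [map_zero]
    rfl
  · change ee j = (mfderiv (𝓡 d) (𝓡 d) φ p 0, EuclideanSpace.single j 1)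
    rw [map_zero]
    rfl

theorem vec2' {α : Type} (v : Fin 2 → α) : v = ![v 0, v 1] := by
  funext i
  fin_cases i <;> rfl

/-- the exterior derivative of a two-form in terms of its coefficients -/
theorem ext_two {f : E d → (E d) [⋀^Fin 2]→L[ℝ] ℝ} {p : E d} (hf : DifferentiableAt ℝ f p)
    (h : ∀ u v w : E d, fderiv ℝ (fun p => f p ![v, w]) p u -
      fderiv ℝ (fun p => f p ![u, w]) p v + fderiv ℝ (fun p => f p ![u, v]) p w = 0) :
    extDeriv f p = 0 := by
  ext v
  have hv : v = ![v 0, v 1, v 2] := by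
    funext i
    fin_cases i <;> rfl
  rw [hv]
  have h2 := extDeriv_apply hf ![v 0, v 1, v 2]
  rw [Fin.sum_univ_three] at h2
  have e0 : Fin.removeNth (0 : Fin 3) ![v 0, v 1, v 2] = ![v 1, v 2] := by
    funext i
    fin_cases i <;> rfl
  have e1 : Fin.removeNth (1 : Fin 3) ![v 0, v 1, v 2] = ![v 0, v 2] := by
    funext i
    fin_cases i <;> rfl
  have e2 : Fin.removeNth (2 : Fin 3) ![v 0, v 1, v 2] = ![v 0, v 1] := by
    funext i
    fin_cases i <;> rfl
  rw [e0, e1, e2] at h2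
  rw [h2]
  have h3 := h (v 0) (v 1) (v 2)
  simp only [Fin.val_zero, pow_zero, one_smul, Fin.val_one, pow_one, Fin.val_two, even_two,
    Even.neg_pow, one_pow, neg_smul, Matrix.cons_val_zero, Matrix.cons_val_one,
    Matrix.cons_val_two]
  change fderiv ℝ (fun p => f p ![v 1, v 2]) p (v 0) +
    -fderiv ℝ (fun p => f p ![v 0, v 2]) p (v 1) + fderiv ℝ (fun p => f p ![v 0, v 1]) p (v 2) = 0
  linarith

variable [IsManifold (𝓡 d) ∞ X]

theorem w0_props (hm : IsMean m) (h : PHyp om) (hav : ∀ (x : X) (u : Fin 2 → E d × E q),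
      av x u = m (fun γ => fib om x (Multiplicative.toAdd γ) u)) :
    IsSmooth (w0 av) ∧ IsClosedForm (w0 av) := by
  have hs : IsSmooth (w0 av) := by
    intro U φ hU hφ
    refine Pool.Agent.Y141.SY.smooth_of_eval fun v => ?_
    have e : (fun p => pb φ (w0 av) p v) = Mg m (co φ om (v 0, 0) (v 1, 0)) := by
      funext p
      rw [vec2' v]
      exact pb_w0 hav φ (v 0) (v 1) p
    rw [e]
    exact (co_bd h hU hφ _ _).smooth_mean hm hU
  refine ⟨hs, fun U φ hU hφ p hp => ?_⟩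
  refine ext_two (hs.diffAt hU hφ hp) fun u v w => ?_
  have e : ∀ v w : E d, (fun p => pb φ (w0 av) p ![v, w]) = Mg m (co φ om (v, 0) (w, 0)) :=
    fun v w => funext fun p => pb_w0 hav φ v w p
  rw [e, e, e]
  exact avg_closed hm h hU hφ hp (u, 0) (v, 0) (w, 0)

theorem Wij_props (hm : IsMean m) (h : PHyp om) (hav : ∀ (x : X) (u : Fin 2 → E d × E q),
      av x u = m (fun γ => fib om x (Multiplicative.toAdd γ) u)) (i j : Fin q) :
    IsSmooth (Wij av i j) ∧ IsClosedForm (Wij av i j) := by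
  have hval : ∀ (φ : E d → X) (v w p : E d), pb φ (Wij av i j) p ![v, w] =
      Mg m (co φ om (v, 0) (ee i)) p * Mg m (co φ om (w, 0) (ee j)) p -
      Mg m (co φ om (w, 0) (ee i)) p * Mg m (co φ om (v, 0) (ee j)) p := by
    intro φ v w p
    rw [← pb_ai hav, ← pb_ai hav, ← pb_ai hav, ← pb_ai hav]
    exact wedge_apply (V := E d) (ai av i (φ p)) (ai av j (φ p))
      (fun k => mfderiv (𝓡 d) (𝓡 d) φ p ((![v, w] : Fin 2 → E d) k))
  have hs : IsSmooth (Wij av i j) := by
    intro U φ hU hφ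
    refine Pool.Agent.Y141.SY.smooth_of_eval fun v => ?_
    have e : (fun p => pb φ (Wij av i j) p v) = fun p =>
        Mg m (co φ om (v 0, 0) (ee i)) p * Mg m (co φ om (v 1, 0) (ee j)) p -
        Mg m (co φ om (v 1, 0) (ee i)) p * Mg m (co φ om (v 0, 0) (ee j)) p := by
      funext p
      rw [vec2' v]
      exact hval φ (v 0) (v 1) p
    rw [e]
    exact (((co_bd h hU hφ _ _).smooth_mean hm hU).mul
      ((co_bd h hU hφ _ _).smooth_mean hm hU)).sub
      (((co_bd h hU hφ _ _).smooth_mean hm hU).mul ((co_bd h hU hφ _ _).smooth_mean hm hU))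
  refine ⟨hs, fun U φ hU hφ p hp => ?_⟩
  refine ext_two (hs.diffAt hU hφ hp) fun u v w => ?_
  have hd : ∀ (v : E d) (i : Fin q),
      DifferentiableAt ℝ (Mg m (co φ om (v, 0) (ee i))) p := fun v i =>
    (((co_bd h hU hφ _ _).smooth_mean hm hU).contDiffAt (hU.mem_nhds hp)).differentiableAt
      (by simp)
  have hsym : ∀ (u v : E d) (i : Fin q), fderiv ℝ (Mg m (co φ om (v, 0) (ee i))) p u =
      fderiv ℝ (Mg m (co φ om (u, 0) (ee i))) p v := by
    intro u v i
    have h1 := avg_closed hm h hU hφ hp (u, 0) (v, 0) (ee i)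
    have h2 : fderiv ℝ (Mg m (co φ om ((u, 0) : E d × E q) (v, 0))) p
        ((ee i : E d × E q).1) = 0 := by
      change fderiv ℝ _ p 0 = 0
      rw [map_zero]
    rw [h2] at h1
    change fderiv ℝ (Mg m (co φ om (v, 0) (ee i))) p u -
      fderiv ℝ (Mg m (co φ om (u, 0) (ee i))) p v + 0 = 0 at h1
    linarith
  have hprod : ∀ (u v w : E d), fderiv ℝ (fun p => pb φ (Wij av i j) p ![v, w]) p u =
      (Mg m (co φ om (v, 0) (ee i)) p * fderiv ℝ (Mg m (co φ om (w, 0) (ee j))) p u +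
        Mg m (co φ om (w, 0) (ee j)) p * fderiv ℝ (Mg m (co φ om (v, 0) (ee i))) p u) -
      (Mg m (co φ om (w, 0) (ee i)) p * fderiv ℝ (Mg m (co φ om (v, 0) (ee j))) p u +
        Mg m (co φ om (v, 0) (ee j)) p * fderiv ℝ (Mg m (co φ om (w, 0) (ee i))) p u) := by
    intro u v w
    have e : (fun p => pb φ (Wij av i j) p ![v, w]) = fun p =>
        Mg m (co φ om (v, 0) (ee i)) p * Mg m (co φ om (w, 0) (ee j)) p -
        Mg m (co φ om (w, 0) (ee i)) p * Mg m (co φ om (v, 0) (ee j)) p :=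
      funext fun p => hval φ v w p
    rw [e]
    have h1 := (((hd v i).hasFDerivAt.mul (hd w j).hasFDerivAt).sub
      ((hd w i).hasFDerivAt.mul (hd v j).hasFDerivAt)).fderiv
    have h2 := congrArg (fun L : E d →L[ℝ] ℝ => L u) h1
    exact h2
  rw [hprod, hprod, hprod, hsym v u i, hsym v u j, hsym w u i, hsym w u j, hsym w v i,
    hsym w v j]
  ring

end

end Pool.Agent.K7.H28.ST
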