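import Pool.Agent.K7.H28.ST.T4

/-!
Schur complements of two-forms.
-/

set_option autoImplicit false

open Set Filter Topology
open scoped Manifold ContDiff

noncomputable section

namespace Pool.Agent.K7.H28.ST

open Pool.Agent.Y501.SY

variable {d q : ℕ}

theorem al_sum0 {V : Type} [NormedAddCommGroup V] [NormedSpace ℝ V] (η : V [⋀^Fin 2]→L[ℝ] ℝ)
    {ι : Type} (s : Finset ι) (c : ι → ℝ) (x : ι → V) (w : V) :
    η ![∑ i ∈ s, c i • x i, w] = ∑ i ∈ s, c i * η ![x i, w] := by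
  have h : cur η w (∑ i ∈ s, c i • x i) = ∑ i ∈ s, c i * cur η w (x i) := by
    rw [map_sum]
    refine Finset.sum_congr rfl fun i _ => ?_
    rw [map_smul, smul_eq_mul]
  exact h

theorem al_sum1 {V : Type} [NormedAddCommGroup V] [NormedSpace ℝ V] (η : V [⋀^Fin 2]→L[ℝ] ℝ)
    {ι : Type} (s : Finset ι) (c : ι → ℝ) (x : ι → V) (w : V) :
    η ![w, ∑ i ∈ s, c i • x i] = ∑ i ∈ s, c i * η ![w, x i] := by
  rw [al_swap, al_sum0, ← Finset.sum_neg_distrib]
  refine Finset.sum_congr rfl fun i _ => ?_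
  rw [al_swap η w (x i)]
  ring

theorem pair_sum (u : E d) (s : E q) :
    ((u, s) : E d × E q) = (u, 0) + ∑ i, s i • (ee i : E d × E q) := by
  have h1 : ∑ i, s i • (EuclideanSpace.single i (1 : ℝ) : E q) = s := by
    have := (EuclideanSpace.basisFun (Fin q) ℝ).sum_repr s
    simpa using this
  have h2 : ∑ i, s i • (ee i : E d × E q) = (0, s) := by
    refine Prod.ext ?_ ?_
    · rw [Prod.fst_sum]
      refine Finset.sum_eq_zero fun i _ => ?_
      exact smul_zero (s i)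
    · rw [Prod.snd_sum]
      exact h1
  rw [h2, Prod.mk_add_mk, add_zero, zero_add]

/-- expansion in terms of the components -/
theorem expand (η : (E d × E q) [⋀^Fin 2]→L[ℝ] ℝ) (u v : E d) (s r : E q) :
    η ![(u, s), (v, r)] = η ![(u, 0), (v, 0)] + ∑ j, r j * η ![(u, 0), ee j] -
      ∑ i, s i * η ![(v, 0), ee i] + ∑ j, r j * ∑ i, s i * η ![ee i, ee j] := by
  rw [pair_sum u s, pair_sum v r, al_add0, al_add1, al_add1, al_sum1, al_sum0, al_sum1]
  have h1 : ∀ j, η ![∑ i, s i • (ee i : E d × E q), ee j] = ∑ i, s i * η ![ee i, ee j] :=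
    fun j => al_sum0 η _ _ _ _
  have h2 : ∑ i, s i * η ![ee i, ((v, 0) : E d × E q)] =
      -∑ i, s i * η ![((v, 0) : E d × E q), ee i] := by
    rw [← Finset.sum_neg_distrib]
    refine Finset.sum_congr rfl fun i _ => ?_
    rw [al_swap η (ee i) (v, 0)]
    ring
  have h3 : ∑ j, r j * η ![∑ i, s i • (ee i : E d × E q), ee j] =
      ∑ j, r j * ∑ i, s i * η ![ee i, ee j] := Finset.sum_congr rfl fun j _ => by rw [h1 j]
  rw [h2, h3]
  ring

/-- the Schur complement of a nondegenerate form is nondegenerate -/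
theorem schur (η : (E d × E q) [⋀^Fin 2]→L[ℝ] ℝ) (Fm H : Matrix (Fin q) (Fin q) ℝ)
    (hF : ∀ i j, η ![ee i, ee j] = Fm i j) (hH : H * Fm = 1)
    (hnd : ∀ z : E d × E q, (∀ w, η ![z, w] = 0) → z = 0) (u : E d)
    (hu : ∀ v : E d, η ![(u, 0), (v, 0)] +
      ∑ i, ∑ j, H i j * (η ![(u, 0), ee i] * η ![(v, 0), ee j]) = 0) : u = 0 := by
  set Au : Fin q → ℝ := fun i => η ![((u, 0) : E d × E q), ee i] with hAu
  set s : E q := WithLp.toLp 2 (fun j => -∑ i, Au i * H i j) with hs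
  have hsj : ∀ j, s j = -∑ i, Au i * H i j := fun j => rfl
  have hsF : ∀ j, ∑ i, s i * Fm i j = - Au j := by
    intro j
    have h1 : ∑ i, s i * Fm i j = -∑ k, Au k * ∑ i, H k i * Fm i j := by
      simp_rw [hsj, neg_mul, Finset.sum_mul, Finset.mul_sum]
      rw [Finset.sum_neg_distrib, Finset.sum_comm]
      congr 1
      refine Finset.sum_congr rfl fun k _ => Finset.sum_congr rfl fun i _ => ?_
      ring
    rw [h1]
    have h2 : ∀ k, ∑ i, H k i * Fm i j = (1 : Matrix (Fin q) (Fin q) ℝ) k j := by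
      intro k
      rw [← hH, Matrix.mul_apply]
    simp_rw [h2, Matrix.one_apply]
    simp
  have hz : ((u, s) : E d × E q) = 0 := by
    refine hnd _ fun w => ?_
    obtain ⟨v, r⟩ := w
    rw [expand]
    have h1 : ∀ j, ∑ i, s i * η ![(ee i : E d × E q), ee j] = - Au j := by
      intro j
      rw [← hsF j]
      exact Finset.sum_congr rfl fun i _ => by rw [hF]
    simp_rw [h1]
    have h2 : ∑ j, r j * η ![((u, 0) : E d × E q), ee j] + ∑ j, r j * -Au j = 0 := by
      rw [← Finset.sum_add_distrib]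
      refine Finset.sum_eq_zero fun j _ => ?_
      simp only [hAu]
      ring
    have h3 : -∑ i, s i * η ![((v, 0) : E d × E q), ee i] =
        ∑ i, ∑ j, H i j * (η ![((u, 0) : E d × E q), ee i] * η ![((v, 0) : E d × E q), ee j]) := by
      simp_rw [hsj, neg_mul, Finset.sum_neg_distrib, neg_neg, Finset.sum_mul]
      rw [Finset.sum_comm]
      refine Finset.sum_congr rfl fun i _ => Finset.sum_congr rfl fun j _ => ?_
      simp only [hAu]
      ring
    have h4 := hu v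
    linarith
  exact congrArg Prod.fst hz

theorem antisymm_sum {Hm : Matrix (Fin q) (Fin q) ℝ} (hH : Hm.transpose = -Hm)
    (a b : Fin q → ℝ) : ∑ i, ∑ j, (Hm i j / 2) * (a i * b j - b i * a j) =
      ∑ i, ∑ j, Hm i j * (a i * b j) := by
  have h1 : ∀ i j, Hm j i = - Hm i j := fun i j => congrFun (congrFun hH i) j
  have h2 : ∑ i, ∑ j, Hm i j * (b i * a j) = -∑ i, ∑ j, Hm i j * (a i * b j) := by
    rw [Finset.sum_comm, ← Finset.sum_neg_distrib]
    refine Finset.sum_congr rfl fun i _ => ?_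
    rw [← Finset.sum_neg_distrib]
    refine Finset.sum_congr rfl fun j _ => ?_
    rw [h1 i j]
    ring
  have h3 : ∑ i, ∑ j, (Hm i j / 2) * (a i * b j - b i * a j) =
      (∑ i, ∑ j, Hm i j * (a i * b j)) / 2 - (∑ i, ∑ j, Hm i j * (b i * a j)) / 2 := by
    rw [Finset.sum_div, Finset.sum_div, ← Finset.sum_sub_distrib]
    refine Finset.sum_congr rfl fun i _ => ?_
    rw [Finset.sum_div, Finset.sum_div, ← Finset.sum_sub_distrib]
    refine Finset.sum_congr rfl fun j _ => ?_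
    ring
  rw [h3, h2]
  ring

/-- the coordinates of the second factor -/
def prj (i : Fin q) : (E d × E q) →L[ℝ] ℝ :=
  (EuclideanSpace.proj (𝕜 := ℝ) i : E q →L[ℝ] ℝ).comp (ContinuousLinearMap.snd ℝ (E d) (E q))

/-- the constant two-form with coefficient matrix `Jm` on the second factor -/
def Jf (d : ℕ) (Jm : Matrix (Fin q) (Fin q) ℝ) : (E d × E q) [⋀^Fin 2]→L[ℝ] ℝ :=
  ∑ i, ∑ j, (Jm i j / 2) • wedge (prj (d := d) i) (prj j)

theorem Jf_apply {Jm : Matrix (Fin q) (Fin q) ℝ} (hJ : Jm.transpose = -Jm)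
    (z w : E d × E q) : Jf d Jm ![z, w] = ∑ i, ∑ j, Jm i j * (z.2 i * w.2 j) := by
  rw [← antisymm_sum hJ]
  unfold Jf
  rw [ContinuousAlternatingMap.sum_apply]
  refine Finset.sum_congr rfl fun i _ => ?_
  rw [ContinuousAlternatingMap.sum_apply]
  refine Finset.sum_congr rfl fun j _ => ?_
  rw [ContinuousAlternatingMap.smul_apply, wedge_apply, smul_eq_mul]
  change (Jm i j / 2) * (z.2 i * w.2 j - w.2 i * z.2 j) = _
  rfl

theorem Jf_ee {Jm : Matrix (Fin q) (Fin q) ℝ} (hJ : Jm.transpose = -Jm) (i j : Fin q) :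
    Jf d Jm ![ee i, ee j] = Jm i j := by
  rw [Jf_apply hJ]
  have h : ∀ k l : Fin q, (ee k : E d × E q).2 l = if l = k then 1 else 0 := by
    intro k l
    change (EuclideanSpace.single k (1 : ℝ) : E q) l = _
    simp
  simp_rw [h]
  simp

theorem Jf_left {Jm : Matrix (Fin q) (Fin q) ℝ} (hJ : Jm.transpose = -Jm) (u : E d)
    (w : E d × E q) : Jf d Jm ![(u, 0), w] = 0 := by
  rw [Jf_apply hJ]
  refine Finset.sum_eq_zero fun i _ => Finset.sum_eq_zero fun j _ => ?_
  change Jm i j * ((0 : E q) i * w.2 j) = 0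
  simp

/-- in even dimensions there are invertible antisymmetric matrices -/
theorem exists_antisymm {k : ℕ} (hk : q = 2 * k) : ∃ Jm : Matrix (Fin q) (Fin q) ℝ,
    Jm.transpose = -Jm ∧ Jm.det ≠ 0 := by
  have e : Fin k ⊕ Fin k ≃ Fin q := finSumFinEquiv.trans (finCongr (by omega))
  refine ⟨(Matrix.J (Fin k) ℝ).reindex e e, ?_, ?_⟩
  · rw [Matrix.transpose_reindex, Matrix.J_transpose]
    rfl
  · rw [Matrix.det_reindex_self]
    intro h0
    have h1 := Matrix.J_det_mul_J_det (l := Fin k) (R := ℝ)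
    rw [h0, zero_mul] at h1
    exact zero_ne_one h1

/-- small perturbations by an invertible matrix are invertible -/
theorem exists_small {F Jm : Matrix (Fin q) (Fin q) ℝ} (hJ : Jm.det ≠ 0) {ε₀ : ℝ}
    (hε₀ : 0 < ε₀) : ∃ ε : ℝ, 0 < ε ∧ ε ≤ ε₀ ∧ (F + ε • Jm).det ≠ 0 := by
  have hinf : (Ioc (0 : ℝ) ε₀).Infinite := Ioc_infinite hε₀
  have hfin : {t : ℝ | (-(Jm⁻¹ * F)).charpoly.IsRoot t}.Finite :=
    Polynomial.finite_setOfPred_isRoot (Matrix.charpoly_monic _).ne_zero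
  obtain ⟨ε, hε, hεr⟩ := (hinf.sdiff hfin).nonempty
  refine ⟨ε, hε.1, hε.2, fun h0 => hεr ?_⟩
  have hu : IsUnit Jm.det := isUnit_iff_ne_zero.2 hJ
  change Polynomial.eval ε (-(Jm⁻¹ * F)).charpoly = 0
  rw [Matrix.eval_charpoly]
  have h1 : F + ε • Jm = Jm * (Matrix.scalar (Fin q) ε - -(Jm⁻¹ * F)) := by
    rw [sub_neg_eq_add, mul_add, ← Matrix.mul_assoc, Matrix.mul_nonsing_inv _ hu, one_mul]
    have h2 : Jm * Matrix.scalar (Fin q) ε = ε • Jm := by
      rw [Matrix.scalar_apply, ← Matrix.smul_one_eq_diagonal, Matrix.mul_smul, Matrix.mul_one]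
    rw [h2, add_comm]
  rw [h1, Matrix.det_mul] at h0
  exact (mul_eq_zero.1 h0).resolve_left hJ

end Pool.Agent.K7.H28.ST
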