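import Pool.Agent.K7.H28.ST.T5
import Pool.Agent.Y501.SY.Cover

/-!
Nondegeneracy of the average, and the reduction.
-/

set_option autoImplicit false

open Set Filter Topology
open scoped Manifold ContDiff

noncomputable section

namespace Pool.Agent.K7.H28.ST

open Pool.Agent.Y501.SY

section lin

variable {V : Type} [NormedAddCommGroup V] [NormedSpace ℝ V]

/-- nondegenerate two-forms -/
def Nd (η : V [⋀^Fin 2]→L[ℝ] ℝ) : Prop := ∀ z, (∀ w, η ![z, w] = 0) → z = 0

variable [FiniteDimensional ℝ V]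

/-- a two-form as a linear map -/
def lin (η : V [⋀^Fin 2]→L[ℝ] ℝ) : V →L[ℝ] V →L[ℝ] ℝ :=
  LinearMap.toContinuousLinearMap
    { toFun := fun z => cur η z
      map_add' := fun u v => by
        ext w
        exact al_add1 η w u v
      map_smul' := fun c u => by
        ext w
        exact al_smul1 η c w u }

theorem lin_apply (η : V [⋀^Fin 2]→L[ℝ] ℝ) (z w : V) : lin η z w = η ![w, z] := rfl

theorem nd_iff (η : V [⋀^Fin 2]→L[ℝ] ℝ) : Nd η ↔ Function.Injective (lin η) := by
  rw [injective_iff_map_eq_zero]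
  constructor
  · intro h z hz
    refine h z fun w => ?_
    rw [al_swap, ← lin_apply, hz]
    simp
  · intro h z hz
    refine h z ?_
    ext w
    rw [lin_apply, al_swap, hz w]
    simp

/-- openness of nondegeneracy -/
theorem nd_near {W : Type} [NormedAddCommGroup W] {T : Set W} (hT : IsOpen T)
    (P : W → V [⋀^Fin 2]→L[ℝ] ℝ) (hP : ∀ v w, ContinuousOn (fun p => P p ![v, w]) T)
    (J0 : V [⋀^Fin 2]→L[ℝ] ℝ) {p₀ : W} (hp₀ : p₀ ∈ T) (h0 : Nd (P p₀)) :
    ∃ ε : ℝ, 0 < ε ∧ ∀ᶠ p in 𝓝 p₀, ∀ s : ℝ, 0 < s → s ≤ ε → Nd (P p + s • J0) := by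
  have hG : ContinuousOn (fun z : W × ℝ => lin (P z.1 + z.2 • J0)) (T ×ˢ univ) := by
    refine continuousOn_clm_apply.2 fun v => continuousOn_clm_apply.2 fun w => ?_
    change ContinuousOn (fun z : W × ℝ => P z.1 ![w, v] + z.2 * J0 ![w, v]) (T ×ˢ univ)
    refine ContinuousOn.add ?_ (continuousOn_snd.mul continuousOn_const)
    exact (hP w v).comp continuousOn_fst fun z hz => hz.1
  have hGa : ContinuousAt (fun z : W × ℝ => lin (P z.1 + z.2 • J0)) (p₀, 0) :=
    hG.continuousAt ((hT.prod isOpen_univ).mem_nhds ⟨hp₀, trivial⟩)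
  have hO : IsOpen {L : V →L[ℝ] V →L[ℝ] ℝ | Function.Injective L} :=
    ContinuousLinearMap.isOpen_injective
  have h1 : {z : W × ℝ | Function.Injective (lin (P z.1 + z.2 • J0))} ∈ 𝓝 (p₀, (0 : ℝ)) := by
    refine hGa.preimage_mem_nhds (hO.mem_nhds ?_)
    change Function.Injective (lin (P p₀ + (0 : ℝ) • J0))
    rw [zero_smul, add_zero]
    exact (nd_iff _).1 h0
  obtain ⟨u, hu, v, hv, huv⟩ := mem_nhds_prod_iff.1 h1
  obtain ⟨δ, hδ, hδv⟩ := Metric.mem_nhds_iff.1 hv
  refine ⟨δ / 2, by positivity, ?_⟩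
  filter_upwards [hu] with p hp s hs hsδ
  rw [nd_iff]
  refine huv (⟨hp, hδv ?_⟩ : (p, s) ∈ u ×ˢ v)
  rw [Metric.mem_ball, Real.dist_0_eq_abs, abs_of_pos hs]
  linarith

end lin

section

variable {d q : ℕ} {X : Type} [TopologicalSpace X] [ChartedSpace (E d) X]
  [IsManifold (𝓡 d) ∞ X] {m : (Multiplicative (E q) → ℝ) → ℝ} {om : PForm d q X}
  {av : X → (E d × E q) [⋀^Fin 2]→L[ℝ] ℝ}

theorem mean_ge {Γ : Type} [Group Γ] {m : (Γ → ℝ) → ℝ} (hm : IsMean m) {F : Γ → ℝ}
    (hF : Bdd F) {c : ℝ} (h : ∀ γ, c ≤ F γ) : c ≤ m F := by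
  have hc : Bdd (fun _ : Γ => -c) := Pool.Agent.Y141.SY.Bdd.const (-c)
  have h1 := hm.nonneg (fun γ => F γ + -c) (Pool.Agent.Y141.SY.Bdd.add hF hc)
    (fun γ => by have := h γ; linarith)
  rw [hm.add _ _ hF hc, Pool.Agent.Y141.SY.mean_const hm] at h1
  linarith

omit [IsManifold (𝓡 d) ∞ X] in
theorem avg_nd (hm : IsMean m) (h : PHyp om) (hav : ∀ (x : X) (u : Fin 2 → E d × E q),
      av x u = m (fun γ => fib om x (Multiplicative.toAdd γ) u)) (x : X)
    (hb : ∃ C : ℝ, ∀ t : E q, ‖fib om x t‖ ≤ C) : Nd (av x) := by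
  intro z hz
  by_contra hne
  obtain ⟨w, c, hc, hcw⟩ := h.nd x z hne
  have h1 : c ≤ av x ![z, w] := by
    rw [hav]
    obtain ⟨C, hC⟩ := hb
    have hbd : Bdd (fun γ : Multiplicative (E q) =>
        fib om x (Multiplicative.toAdd γ) ![z, w]) := by
      refine ⟨C * ∏ i, ‖(![z, w] : Fin 2 → E d × E q) i‖, fun γ => ?_⟩
      exact ((fib om x (Multiplicative.toAdd γ)).le_opNorm _).trans
        (mul_le_mul_of_nonneg_right (hC _) (Finset.prod_nonneg fun i _ => norm_nonneg _))
    exact mean_ge hm hbd fun γ => hcw (Multiplicative.toAdd γ)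
  rw [hz w] at h1
  linarith

theorem local_nd (hm : IsMean m) (h : PHyp om) (hav : ∀ (x : X) (u : Fin 2 → E d × E q),
      av x u = m (fun γ => fib om x (Multiplicative.toAdd γ) u))
    {Jm : Matrix (Fin q) (Fin q) ℝ} (hJ : Jm.transpose = -Jm) (x : X) :
    ∃ ε : ℝ, 0 < ε ∧ ∀ᶠ y in 𝓝 x, ∀ s : ℝ, 0 < s → s ≤ ε → Nd (av y + s • Jf d Jm) := by
  set c := chartAt (E d) x with hc
  have hpt : c x ∈ c.target := mem_chart_target (E d) x
  set P : E d → (E d × E q) [⋀^Fin 2]→L[ℝ] ℝ := fun p =>
    (av (c.symm p)).compContinuousLinearMap (AW q x p) with hP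
  have hPv : ∀ v w p, P p ![v, w] = Mg m (co c.symm om v w) p := by
    intro v w p
    rw [← co_avg hav]
    change av (c.symm p) (fun i => AW q x p ((![v, w] : Fin 2 → E d × E q) i)) = _
    congr 1
    funext i
    fin_cases i <;> rfl
  have hPc : ∀ v w, ContinuousOn (fun p => P p ![v, w]) c.target := by
    intro v w
    simp_rw [hPv]
    exact ((co_bd h c.open_target contMDiffOn_chart_symm v w).smooth_mean hm
      c.open_target).continuousOn
  have hP0 : Nd (P (c x)) := by
    intro z hz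
    have h1 : Nd (av (c.symm (c x))) := avg_nd hm h hav _ (fib_bdd h _)
    have h2 : AW q x (c x) z = 0 := by
      refine h1 _ fun w => ?_
      have h3 := hz (BW q x (c x) w)
      have h4 : P (c x) ![z, BW q x (c x) w] = av (c.symm (c x)) ![AW q x (c x) z, w] := by
        change av (c.symm (c x)) (fun i => AW q x (c x)
          ((![z, BW q x (c x) w] : Fin 2 → E d × E q) i)) = _
        congr 1
        funext i
        fin_cases i
        · rfl
        · exact AWBW x hpt w
      rw [← h4]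
      exact h3
    have h5 := BWAW (q := q) x hpt z
    rw [h2, map_zero] at h5
    exact h5.symm
  obtain ⟨ε, hε, hev⟩ := nd_near c.open_target P hPc (Jf d Jm) hpt hP0
  refine ⟨ε, hε, ?_⟩
  have h1 : ∀ᶠ y in 𝓝 x, y ∈ c.source := c.open_source.mem_nhds (mem_chart_source (E d) x)
  have h2 := (c.continuousAt (mem_chart_source (E d) x)).eventually hev
  filter_upwards [h1, h2] with y hy1 hy2 s hs0 hsε
  have hy3 := hy2 s hs0 hsε
  have hyt : c y ∈ c.target := c.map_source hy1
  have key : ∀ y' : X, y' = c.symm (c y) → Nd (av y' + s • Jf d Jm) := by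
    rintro y' rfl
    intro z hz
    have h4 : BW q x (c y) z = 0 := by
      refine hy3 _ fun w => ?_
      have h5 := hz (AW q x (c y) w)
      have h6 : (P (c y) + s • Jf d Jm) ![BW q x (c y) z, w] =
          (av (c.symm (c y)) + s • Jf d Jm) ![z, AW q x (c y) w] := by
        change P (c y) ![BW q x (c y) z, w] + s * Jf d Jm ![BW q x (c y) z, w] =
          av (c.symm (c y)) ![z, AW q x (c y) w] + s * Jf d Jm ![z, AW q x (c y) w]
        have h7 : P (c y) ![BW q x (c y) z, w] =
            av (c.symm (c y)) ![z, AW q x (c y) w] := by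
          change av (c.symm (c y)) (fun i => AW q x (c y)
            ((![BW q x (c y) z, w] : Fin 2 → E d × E q) i)) = _
          congr 1
          funext i
          fin_cases i
          · exact AWBW x hyt z
          · rfl
        rw [h7, Jf_apply hJ, Jf_apply hJ]
        rfl
      rw [h6]
      exact h5
    have h5 := AWBW (q := q) x hyt z
    rw [h4, map_zero] at h5
    exact h5.symm
  exact key y (c.left_inv hy1).symm

theorem F_const (hm : IsMean m) (h : PHyp om) (hav : ∀ (x : X) (u : Fin 2 → E d × E q),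
      av x u = m (fun γ => fib om x (Multiplicative.toAdd γ) u)) [PreconnectedSpace X]
    (x y : X) : Fij av x = Fij av y := by
  funext i j
  have hl : IsLocallyConstant (fun x => Fij av x i j) := by
    rw [IsLocallyConstant.iff_eventually_eq]
    intro x
    set c := chartAt (E d) x with hc
    have hpt : c x ∈ c.target := mem_chart_target (E d) x
    obtain ⟨δ, hδ, hball⟩ := Metric.isOpen_iff.1 c.open_target (c x) hpt
    have hs := (co_bd h c.open_target contMDiffOn_chart_symm (ee i) (ee j)).smooth_mean hm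
      c.open_target
    have hconst : ∀ p ∈ Metric.ball (c x) δ, Mg m (co c.symm om (ee i) (ee j)) p =
        Mg m (co c.symm om (ee i) (ee j)) (c x) := by
      intro p hp
      refine IsOpen.is_const_of_fderiv_eq_zero (𝕜 := ℝ) Metric.isOpen_ball
        (convex_ball (c x) δ).isPreconnected ?_ ?_ hp (Metric.mem_ball_self hδ)
      · exact (hs.differentiableOn (by simp)).mono hball
      · intro p' hp'
        ext u
        have h1 := avg_closed hm h c.open_target contMDiffOn_chart_symm (hball hp')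
          (u, 0) (ee i) (ee j)
        have h2 : ∀ g : E d → ℝ, ∀ k : Fin q, fderiv ℝ g p' ((ee k : E d × E q).1) = 0 := by
          intro g k
          change fderiv ℝ g p' 0 = 0
          rw [map_zero]
        rw [h2, h2, sub_zero, add_zero] at h1
        exact h1
    have h1 : ∀ᶠ y in 𝓝 x, y ∈ c.source := c.open_source.mem_nhds (mem_chart_source (E d) x)
    have h2 := (c.continuousAt (mem_chart_source (E d) x)).eventually
      (Metric.ball_mem_nhds (c x) hδ)
    filter_upwards [h1, h2] with y hy1 hy2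
    have h3 := pb_Fij hav c.symm i j (c y)
    have h4 := pb_Fij hav c.symm i j (c x)
    rw [c.left_inv hy1] at h3
    rw [c.left_inv (mem_chart_source (E d) x)] at h4
    rw [h3, h4]
    exact hconst _ hy2
  exact hl.apply_eq_of_preconnectedSpace x y

end

end Pool.Agent.K7.H28.ST
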