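import Pool.Agent.K7.H28.ST.T6

/-!
Symplectic forms from bounded forms on the product with a vector space.
-/

set_option autoImplicit false

open Set Filter Topology
open scoped Manifold ContDiff

noncomputable section

namespace Pool.Agent.K7.H28.ST

open Pool.Agent.Y501.SY

section

variable {d q : ℕ} {X : Type} [TopologicalSpace X] [ChartedSpace (E d) X]
  [IsManifold (𝓡 d) ∞ X]

omit [IsManifold (𝓡 d) ∞ X] in
theorem closed_sum {ι : Type} (s : Finset ι) {σ : ι → Form d X 2}
    (hσ : ∀ i ∈ s, IsSmooth (σ i) ∧ IsClosedForm (σ i)) :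
    IsSmooth (∑ i ∈ s, σ i) ∧ IsClosedForm (∑ i ∈ s, σ i) := by
  classical
  refine ⟨IsSmooth.sum s fun i hi => (hσ i hi).1, ?_⟩
  induction s using Finset.induction_on with
  | empty =>
    rw [Finset.sum_empty]
    exact IsD.zero
  | insert a s ha ih =>
    rw [Finset.sum_insert ha]
    have h1 := hσ a (Finset.mem_insert_self a s)
    have h2 : ∀ i ∈ s, IsSmooth (σ i) ∧ IsClosedForm (σ i) :=
      fun i hi => hσ i (Finset.mem_insert_of_mem hi)
    have h3 := IsD.add h1.2 (ih h2) h1.1 (IsSmooth.sum s fun i hi => (h2 i hi).1)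
    rw [add_zero] at h3
    exact h3

omit [IsManifold (𝓡 d) ∞ X] in
theorem closed_smul {σ : Form d X 2} (hσ : IsSmooth σ ∧ IsClosedForm σ) (c : ℝ) :
    IsSmooth (c • σ) ∧ IsClosedForm (c • σ) := by
  refine ⟨hσ.1.smul c, ?_⟩
  have h := IsD.smul hσ.2 c
  rw [smul_zero] at h
  exact h

/-- bounded, uniformly nondegenerate closed two-forms on the product with an even-dimensional
vector space give symplectic forms -/
theorem bounded [CompactSpace X] [ConnectedSpace X] {k : ℕ} (hq : q = 2 * k) {om : PForm d q X}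
    (h : PHyp om) : ∃ σ : Form d X 2, IsSmooth σ ∧ IsClosedForm σ ∧
      ∀ (x : X) (u : TangentSpace (𝓡 d) x), (∀ v, σ x ![u, v] = 0) → u = 0 := by
  obtain ⟨m, hm⟩ := amenable_comm (Γ := Multiplicative (E q))
  obtain ⟨av, hav⟩ := exists_om hm h
  obtain ⟨Jm, hJ, hJd⟩ := exists_antisymm hq
  obtain ⟨ε₀, hε₀, hnd⟩ := unif (isCompact_univ (X := X))
    (fun ε y => ∀ s : ℝ, 0 < s → s ≤ ε → Nd (av y + s • Jf d Jm))
    (fun ε ε' y hle hp s hs hsε => hp s hs (hsε.trans hle))
    (fun x _ => local_nd hm h hav hJ x)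
  obtain ⟨x₀⟩ := (inferInstance : Nonempty X)
  set F := Fij av x₀ with hF
  have hFx : ∀ x, Fij av x = F := fun x => F_const hm h hav x x₀
  have hFt : F.transpose = -F := by
    ext i j
    exact al_swap (av x₀) (ee j) (ee i)
  obtain ⟨ε, hε, hεε₀, hdet⟩ := exists_small (F := F) hJd hε₀
  set G := F + ε • Jm with hG
  have hGt : G.transpose = -G := by
    rw [hG, Matrix.transpose_add, Matrix.transpose_smul, hFt, hJ, smul_neg, neg_add]
  have hGu : IsUnit G.det := isUnit_iff_ne_zero.2 hdet
  set H := G⁻¹ with hH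
  have hHG : H * G = 1 := Matrix.nonsing_inv_mul G hGu
  have hGH : G * H = 1 := Matrix.mul_nonsing_inv G hGu
  have hHt : H.transpose = -H := by
    have h1 : H.transpose * G.transpose = 1 := by
      rw [← Matrix.transpose_mul, hGH, Matrix.transpose_one]
    rw [hGt, Matrix.mul_neg] at h1
    calc H.transpose = H.transpose * (G * H) := by rw [hGH, Matrix.mul_one]
      _ = -((-(H.transpose * G)) * H) := by rw [Matrix.neg_mul, neg_neg, Matrix.mul_assoc]
      _ = -H := by rw [h1, Matrix.one_mul]
  have hW : IsSmooth (∑ i, ∑ j, (H i j / 2) • Wij av i j) ∧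
      IsClosedForm (∑ i, ∑ j, (H i j / 2) • Wij av i j) :=
    closed_sum _ fun i _ => closed_sum _ fun j _ => closed_smul (Wij_props hm h hav i j) _
  have hw0 := w0_props hm h hav
  refine ⟨w0 av + ∑ i, ∑ j, (H i j / 2) • Wij av i j, hw0.1.add hW.1, ?_, ?_⟩
  · have h1 := IsD.add hw0.2 hW.2 hw0.1 hW.1
    rw [add_zero] at h1
    exact h1
  · intro x
    suffices key : ∀ u : E d, (∀ v : E d,
        (w0 av + ∑ i, ∑ j, (H i j / 2) • Wij av i j) x ![u, v] = 0) → u = 0 from
      fun u hu => key u hu
    intro u hu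
    have hη := hnd x (mem_univ x) ε hε hεε₀
    refine schur (av x + ε • Jf d Jm) G H ?_ hHG hη u fun v => ?_
    · intro i j
      change av x ![ee i, ee j] + ε * Jf d Jm ![ee i, ee j] = F i j + ε * Jm i j
      rw [Jf_ee hJ, ← hFx x]
      rfl
    · have h1 : ∀ (w : E d) (z : E d × E q), (av x + ε • Jf d Jm) ![(w, 0), z] =
          av x ![(w, 0), z] := by
        intro w z
        change av x ![(w, 0), z] + ε * Jf d Jm ![(w, 0), z] = _
        rw [Jf_left hJ, mul_zero, add_zero]
      simp_rw [h1]
      rw [← antisymm_sum hHt (fun i => av x ![((u : E d), (0 : E q)), ee i])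
        (fun j => av x ![(v, 0), ee j])]
      have h2 := hu v
      have h3 : (w0 av + ∑ i, ∑ j, (H i j / 2) • Wij av i j) x ![u, v] =
          av x ![((u : E d), (0 : E q)), (v, 0)] + ∑ i, ∑ j, (H i j / 2) *
            (av x ![((u : E d), (0 : E q)), ee i] * av x ![(v, 0), ee j] -
              av x ![((v : E d), (0 : E q)), ee i] * av x ![(u, 0), ee j]) := by
        have h4 : (∑ i, ∑ j, (H i j / 2) • Wij av i j) x = ∑ i, ∑ j, (H i j / 2) • Wij av i j x := by
          rw [Finset.sum_apply]
          refine Finset.sum_congr rfl fun i _ => ?_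
          rw [Finset.sum_apply]
          rfl
        have h5 : (w0 av + ∑ i, ∑ j, (H i j / 2) • Wij av i j) x ![u, v] =
            w0 av x ![u, v] + (∑ i, ∑ j, (H i j / 2) • Wij av i j) x ![u, v] := rfl
        rw [h5, h4, ContinuousAlternatingMap.sum_apply]
        congr 1
        · change av x (fun i => ContinuousLinearMap.inl ℝ (E d) (E q)
            ((![u, v] : Fin 2 → E d) i)) = _
          congr 1
          funext i
          fin_cases i <;> rfl
        · refine Finset.sum_congr rfl fun i _ => ?_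
          rw [ContinuousAlternatingMap.sum_apply]
          refine Finset.sum_congr rfl fun j _ => ?_
          have h6 := wedge_apply (V := E d) (ai av i x) (ai av j x) ![u, v]
          change (H i j / 2) * Wij av i j x ![u, v] = _
          congr 1
      rw [← h3]
      exact h2

end

end Pool.Agent.K7.H28.ST
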